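import Pool.Agent.Lib.MP_a966e6_co.PNU.Neg5.SpecB
import Pool.Agent.Lib.MP_a966e6_co.PNU.Neg5.D12

/-!
Kernel checks of certificates.
-/

set_option autoImplicit false

namespace Pool.Agent.Lib.MP_a966e6_co.PNU.Neg5

theorem sp12 : testSp tL12 (nat_lit 1) (nat_lit 2) (nat_lit 70) = true := by
  decide +kernel

theorem ck12 : chk tL12 tH12 (nat_lit 355) (nat_lit 1216) (nat_lit 355) = true := by
  decide +kernel

theorem ze12 : Nat.beq (cl tL12 (nat_lit 1571)) (nat_lit 0) = true := by
  decide +kernel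

end Pool.Agent.Lib.MP_a966e6_co.PNU.Neg5
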