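import Pool.Agent.Lib.MP_a966e6_co.PNU.Neg5.SpecB
import Pool.Agent.Lib.MP_a966e6_co.PNU.Neg5.D13

/-!
Kernel checks of certificates.
-/

set_option autoImplicit false

namespace Pool.Agent.Lib.MP_a966e6_co.PNU.Neg5

theorem sp13 : testSp tL13 (nat_lit 1) (nat_lit 3) (nat_lit 12) = true := by
  decide +kernel

theorem ck13 : chk tL13 tH13 (nat_lit 297) (nat_lit 1171) (nat_lit 297) = true := by
  decide +kernel

theorem ze13 : Nat.beq (cl tL13 (nat_lit 1468)) (nat_lit 0) = true := by
  decide +kernel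

end Pool.Agent.Lib.MP_a966e6_co.PNU.Neg5
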