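import Pool.Agent.Lib.MP_a966e6_co.PNU.Neg5.SpecB
import Pool.Agent.Lib.MP_a966e6_co.PNU.Neg5.DL14
import Pool.Agent.Lib.MP_a966e6_co.PNU.Neg5.DH14

/-!
Kernel checks of certificates.
-/

set_option autoImplicit false

namespace Pool.Agent.Lib.MP_a966e6_co.PNU.Neg5

theorem sp14 : testSp tL14 (nat_lit 1) (nat_lit 4) (nat_lit 58) = true := by
  decide +kernel

theorem ck14a : chk tL14 tH14 (nat_lit 343) (nat_lit 1305) (nat_lit 343) = true := by
  decide +kernel

end Pool.Agent.Lib.MP_a966e6_co.PNU.Neg5
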