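import Pool.Agent.Lib.MP_a966e6_co.PNU.Neg5.SpecB
import Pool.Agent.Lib.MP_a966e6_co.PNU.Neg5.D15

/-!
Kernel checks of certificates.
-/

set_option autoImplicit false

namespace Pool.Agent.Lib.MP_a966e6_co.PNU.Neg5

theorem ck15b : chk tL15 tH15 (nat_lit 425) (nat_lit 614) (nat_lit 1525) = true := by
  decide +kernel

theorem ze15 : Nat.beq (cl tL15 (nat_lit 2139)) (nat_lit 0) = true := by
  decide +kernel

end Pool.Agent.Lib.MP_a966e6_co.PNU.Neg5
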