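import Pool.Agent.Lib.MP_a966e6_co.PNU.Neg5.SpecB
import Pool.Agent.Lib.MP_a966e6_co.PNU.Neg5.D34

/-!
Kernel checks of certificates.
-/

set_option autoImplicit false

namespace Pool.Agent.Lib.MP_a966e6_co.PNU.Neg5

theorem sp34 : testSp tL34 (nat_lit 3) (nat_lit 4) (nat_lit 97) = true := by
  decide +kernel

theorem ck34a : chk tL34 tH34 (nat_lit 382) (nat_lit 1119) (nat_lit 382) = true := by
  decide +kernel

end Pool.Agent.Lib.MP_a966e6_co.PNU.Neg5
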