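import Pool.Agent.Lib.MP_a966e6_co.PNU.Neg5.SpecB
import Pool.Agent.Lib.MP_a966e6_co.PNU.Neg5.D35

/-!
Kernel checks of certificates.
-/

set_option autoImplicit false

namespace Pool.Agent.Lib.MP_a966e6_co.PNU.Neg5

theorem sp35 : testSp tL35 (nat_lit 3) (nat_lit 5) (nat_lit 171) = true := by
  decide +kernel

theorem ck35 : chk tL35 tH35 (nat_lit 456) (nat_lit 1067) (nat_lit 456) = true := by
  decide +kernel

theorem ze35 : Nat.beq (cl tL35 (nat_lit 1523)) (nat_lit 0) = true := by
  decide +kernel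

end Pool.Agent.Lib.MP_a966e6_co.PNU.Neg5
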