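import Pool.Agent.Lib.MP_a966e6_co.PNU.Neg5.SpecB
import Pool.Agent.Lib.MP_a966e6_co.PNU.Neg5.DS

/-!
Kernel checks of certificates.
-/

set_option autoImplicit false

namespace Pool.Agent.Lib.MP_a966e6_co.PNU.Neg5

theorem sp21 : testSp tL21 (nat_lit 2) (nat_lit 1) (nat_lit 41) = true := by
  decide +kernel

theorem ck21 : chk tL21 tH21 (nat_lit 326) (nat_lit 76) (nat_lit 326) = true := by
  decide +kernel

theorem ze21 : Nat.beq (cl tL21 (nat_lit 402)) (nat_lit 0) = true := by
  decide +kernel

theorem sp23 : testSp tL23 (nat_lit 2) (nat_lit 3) (nat_lit 42) = true := by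
  decide +kernel

theorem ck23 : chk tL23 tH23 (nat_lit 327) (nat_lit 64) (nat_lit 327) = true := by
  decide +kernel

theorem ze23 : Nat.beq (cl tL23 (nat_lit 391)) (nat_lit 0) = true := by
  decide +kernel

theorem sp24 : testSp tL24 (nat_lit 2) (nat_lit 4) (nat_lit 52) = true := by
  decide +kernel

theorem ck24 : chk tL24 tH24 (nat_lit 337) (nat_lit 78) (nat_lit 337) = true := by
  decide +kernel

theorem ze24 : Nat.beq (cl tL24 (nat_lit 415)) (nat_lit 0) = true := by
  decide +kernel

theorem sp25 : testSp tL25 (nat_lit 2) (nat_lit 5) (nat_lit 74) = true := by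
  decide +kernel

theorem ck25 : chk tL25 tH25 (nat_lit 359) (nat_lit 83) (nat_lit 359) = true := by
  decide +kernel

theorem ze25 : Nat.beq (cl tL25 (nat_lit 442)) (nat_lit 0) = true := by
  decide +kernel

theorem sp32 : testSp tL32 (nat_lit 3) (nat_lit 2) (nat_lit 99) = true := by
  decide +kernel

theorem ck32 : chk tL32 tH32 (nat_lit 384) (nat_lit 519) (nat_lit 384) = true := by
  decide +kernel

theorem ze32 : Nat.beq (cl tL32 (nat_lit 903)) (nat_lit 0) = true := by
  decide +kernel

theorem sp41 : testSp tL41 (nat_lit 4) (nat_lit 1) (nat_lit 74) = true := by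
  decide +kernel

theorem ck41 : chk tL41 tH41 (nat_lit 359) (nat_lit 245) (nat_lit 359) = true := by
  decide +kernel

theorem ze41 : Nat.beq (cl tL41 (nat_lit 604)) (nat_lit 0) = true := by
  decide +kernel

theorem sp42 : testSp tL42 (nat_lit 4) (nat_lit 2) (nat_lit 102) = true := by
  decide +kernel

theorem ck42 : chk tL42 tH42 (nat_lit 387) (nat_lit 224) (nat_lit 387) = true := by
  decide +kernel

theorem ze42 : Nat.beq (cl tL42 (nat_lit 611)) (nat_lit 0) = true := by
  decide +kernel

theorem sp43 : testSp tL43 (nat_lit 4) (nat_lit 3) (nat_lit 89) = true := by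
  decide +kernel

theorem ck43 : chk tL43 tH43 (nat_lit 374) (nat_lit 484) (nat_lit 374) = true := by
  decide +kernel

theorem ze43 : Nat.beq (cl tL43 (nat_lit 858)) (nat_lit 0) = true := by
  decide +kernel

theorem sp45 : testSp tL45 (nat_lit 4) (nat_lit 5) (nat_lit 99) = true := by
  decide +kernel

theorem ck45 : chk tL45 tH45 (nat_lit 384) (nat_lit 170) (nat_lit 384) = true := by
  decide +kernel

theorem ze45 : Nat.beq (cl tL45 (nat_lit 554)) (nat_lit 0) = true := by
  decide +kernel

theorem sp51 : testSp tL51 (nat_lit 5) (nat_lit 1) (nat_lit 3) = true := by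
  decide +kernel

theorem ck51 : chk tL51 tH51 (nat_lit 288) (nat_lit 1) (nat_lit 288) = true := by
  decide +kernel

theorem ze51 : Nat.beq (cl tL51 (nat_lit 289)) (nat_lit 0) = true := by
  decide +kernel

theorem sp52 : testSp tL52 (nat_lit 5) (nat_lit 2) (nat_lit 42) = true := by
  decide +kernel

theorem ck52 : chk tL52 tH52 (nat_lit 327) (nat_lit 76) (nat_lit 327) = true := by
  decide +kernel

theorem ze52 : Nat.beq (cl tL52 (nat_lit 403)) (nat_lit 0) = true := by
  decide +kernel

theorem sp53 : testSp tL53 (nat_lit 5) (nat_lit 3) (nat_lit 64) = true := by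
  decide +kernel

theorem ck53 : chk tL53 tH53 (nat_lit 349) (nat_lit 115) (nat_lit 349) = true := by
  decide +kernel

theorem ze53 : Nat.beq (cl tL53 (nat_lit 464)) (nat_lit 0) = true := by
  decide +kernel

theorem sp54 : testSp tL54 (nat_lit 5) (nat_lit 4) (nat_lit 52) = true := by
  decide +kernel

theorem ck54 : chk tL54 tH54 (nat_lit 337) (nat_lit 81) (nat_lit 337) = true := by
  decide +kernel

theorem ze54 : Nat.beq (cl tL54 (nat_lit 418)) (nat_lit 0) = true := by
  decide +kernel

end Pool.Agent.Lib.MP_a966e6_co.PNU.Neg5
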