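import Pool.Agent.Lib.MP_a966e6_co.PNU.Neg5.Tab

/-!
The kernel checker for the case `k = 5`. Candidates `i = 305 p + t < 1525`: triangle `t` has colour
`p`. A clause is a bit mask: one of these candidates is true.
-/

set_option autoImplicit false

namespace Pool.Agent.Lib.MP_a966e6_co.PNU.Neg5

/-- mask `m` of triangles on page `p` -/
noncomputable def pg (p m : Nat) : Nat := Nat.shiftLeft m (Nat.mul (nat_lit 305) p)

/-- mask `m` of triangles on all pages -/
noncomputable def al (m : Nat) : Nat :=
  Nat.lor (Nat.lor (Nat.lor (Nat.lor m (Nat.shiftLeft m (nat_lit 305)))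
    (Nat.shiftLeft m (nat_lit 610))) (Nat.shiftLeft m (nat_lit 915)))
    (Nat.shiftLeft m (nat_lit 1220))

/-- mask `m` of triangles on all pages except `p` -/
noncomputable def cr (p m : Nat) : Nat := Nat.xor (al m) (pg p m)

/-- the candidates which exclude the candidate `i` -/
noncomputable def cT (i : Nat) : Nat :=
  Nat.lor (pg (Nat.div i (nat_lit 305)) (tX.get (Nat.mod i (nat_lit 305))))
    (cr (Nat.div i (nat_lit 305)) (tY.get (Nat.mod i (nat_lit 305))))

/-- selection by kind -/
noncomputable def sel (k a b c d : Nat) : Nat :=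
  cond (Nat.beq k (nat_lit 0)) a (cond (Nat.beq k (nat_lit 1)) b
    (cond (Nat.beq k (nat_lit 2)) c d))

/-- members of the literal `L` -/
noncomputable def memF (L : Nat) : Nat :=
  sel (Nat.mod L (nat_lit 4))
    (Nat.shiftLeft (nat_lit 1) (Nat.div L (nat_lit 4)))
    (pg (Nat.div (Nat.div L (nat_lit 4)) (nat_lit 105))
      (tC.get (Nat.mod (Nat.div L (nat_lit 4)) (nat_lit 105))))
    (cr (Nat.div (Nat.div L (nat_lit 4)) (nat_lit 105))
      (tC.get (Nat.mod (Nat.div L (nat_lit 4)) (nat_lit 105))))
    (cT (Nat.div L (nat_lit 4)))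

/-- candidates excluded by the literal `L` -/
noncomputable def conF (L : Nat) : Nat :=
  sel (Nat.mod L (nat_lit 4))
    (cT (Nat.div L (nat_lit 4)))
    (Nat.lor (pg (Nat.div (Nat.div L (nat_lit 4)) (nat_lit 105))
        (tZ.get (Nat.mod (Nat.div L (nat_lit 4)) (nat_lit 105))))
      (cr (Nat.div (Nat.div L (nat_lit 4)) (nat_lit 105))
        (tC.get (Nat.mod (Nat.div L (nat_lit 4)) (nat_lit 105)))))
    (pg (Nat.div (Nat.div L (nat_lit 4)) (nat_lit 105))
      (tC.get (Nat.mod (Nat.div L (nat_lit 4)) (nat_lit 105))))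
    (Nat.shiftLeft (nat_lit 1) (Nat.div L (nat_lit 4)))

/-- `memF` with shifted argument -/
noncomputable def memS (l : Nat) : Nat := memF (Nat.pred l)

/-- `conF` with shifted argument -/
noncomputable def conS (l : Nat) : Nat := conF (Nat.pred l)

/-- union of the members of a coded list of literals -/
noncomputable def unm (fuel : Nat) : Nat → Nat :=
  Nat.rec (motive := fun _ => Nat → Nat) (fun _ => (nat_lit 0))
    (fun _ ih x => cond (Nat.beq x (nat_lit 0)) (nat_lit 0)
      (fc (Nat.mod x (nat_lit 8192)) fun l =>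
        Nat.lor (memS l) (ih (Nat.div x (nat_lit 8192))))) fuel

/-- clause number `h - 1` -/
noncomputable def cl (tL : Tr) (h : Nat) : Nat :=
  cond (Nat.ble h (nat_lit 285)) (tG.get (Nat.pred h))
    (unm (nat_lit 4000) (tL.get (Nat.sub h (nat_lit 286))))

/-- one derivation -/
noncomputable def run (tL : Tr) (j fuel : Nat) : Nat → Nat → Bool :=
  Nat.rec (motive := fun _ => Nat → Nat → Bool) (fun _ _ => false)
    (fun _ ih H F =>
      fc (Nat.mod H (nat_lit 67108864)) fun D =>
      fc (Nat.mod D (nat_lit 8192)) fun h =>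
      fc (Nat.div D (nat_lit 8192)) fun l =>
      cond (Nat.ble h j)
        ((fun X => cond (Nat.beq l (nat_lit 0)) (Nat.beq X (nat_lit 0))
          (cond (Nat.beq (Nat.land X (memS l)) X)
            (ih (Nat.div H (nat_lit 67108864)) (Nat.lor F (conS l))) false))
          (Nat.xor (cl tL h) (Nat.land (cl tL h) F))) false) fuel

/-- the derivations of the clauses `j, j + 1, .., j + n - 1` -/
noncomputable def chk (tL tH : Tr) (off n : Nat) : Nat → Bool :=
  Nat.rec (motive := fun _ => Nat → Bool) (fun _ => true)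
    (fun _ ih j => fc j fun j =>
      cond (run tL j (nat_lit 10000) (tH.get (Nat.sub j off)) (cl tL (Nat.succ j)))
        (ih (Nat.succ j)) false) n

end Pool.Agent.Lib.MP_a966e6_co.PNU.Neg5
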