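import Mathlib
import Pool.Agent.Lib.MP_a966e6_co.PNU.Neg5.Core

/-!
Bits of the masks.
-/

set_option autoImplicit false

namespace Pool.Agent.Lib.MP_a966e6_co.PNU.Neg5

theorem fc_eq {α : Type} (n : ℕ) (f : ℕ → α) : fc n f = f n := by
  cases n with
  | zero => rfl
  | succ m => rfl

theorem testBit_lt {m : ℕ} (hm : m < 2 ^ 305) {i : ℕ} (h : m.testBit i = true) : i < 305 := by
  by_contra hi
  have h1 : m < 2 ^ i := lt_of_lt_of_le hm (Nat.pow_le_pow_right (by norm_num) (by omega))
  rw [Nat.testBit_lt_two_pow h1] at h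
  exact absurd h (by decide)

theorem pg_eq (p m : ℕ) : pg p m = m <<< (305 * p) := rfl

theorem al_eq (m : ℕ) : al m = m ||| m <<< 305 ||| m <<< 610 ||| m <<< 915 ||| m <<< 1220 := rfl

theorem cr_eq (p m : ℕ) : cr p m = al m ^^^ pg p m := rfl

theorem tb_pg {p m j : ℕ} (hm : m < 2 ^ 305) (h : (pg p m).testBit j = true) :
    j / 305 = p ∧ m.testBit (j % 305) = true := by
  rw [pg_eq, Nat.testBit_shiftLeft] at h
  simp only [Bool.and_eq_true, decide_eq_true_eq] at h
  have h1 := testBit_lt hm h.2
  have h2 : j / 305 = p := by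
    have : j = 305 * p + (j - 305 * p) := by omega
    omega
  refine ⟨h2, ?_⟩
  have h3 : j % 305 = j - 305 * p := by omega
  rw [h3]
  exact h.2

theorem tb_pg' {p m s : ℕ} (h : m.testBit s = true) : (pg p m).testBit (305 * p + s) = true := by
  rw [pg_eq, Nat.testBit_shiftLeft]
  have : 305 * p + s - 305 * p = s := by omega
  rw [this, h]
  simp

theorem pg_ne {p m q s : ℕ} (hm : m < 2 ^ 305) (hs : s < 305) (hq : q ≠ p) :
    (pg p m).testBit (305 * q + s) = false := by
  by_contra h
  have h1 := tb_pg hm (by simpa using h : (pg p m).testBit (305 * q + s) = true)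
  omega

theorem tb_al {m j : ℕ} : (al m).testBit j = (m.testBit j || (decide (305 ≤ j) && m.testBit (j - 305))
    || (decide (610 ≤ j) && m.testBit (j - 610)) || (decide (915 ≤ j) && m.testBit (j - 915))
    || (decide (1220 ≤ j) && m.testBit (j - 1220))) := by
  rw [al_eq]
  simp only [Nat.testBit_or, Nat.testBit_shiftLeft]

theorem tb_al' {m q s : ℕ} (h : m.testBit s = true) (hq : q < 5) :
    (al m).testBit (305 * q + s) = true := by
  rw [tb_al]
  have hq' : q = 0 ∨ q = 1 ∨ q = 2 ∨ q = 3 ∨ q = 4 := by omega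
  rcases hq' with rfl | rfl | rfl | rfl | rfl
  · simp [h]
  · simp [h]
  · have : 305 * 2 + s - 610 = s := by omega
    simp [this, h]
  · have : 305 * 3 + s - 915 = s := by omega
    simp [this, h]
  · have : 305 * 4 + s - 1220 = s := by omega
    simp [this, h]

theorem al_bit {m j : ℕ} (hm : m < 2 ^ 305) (h : (al m).testBit j = true) :
    j / 305 < 5 ∧ m.testBit (j % 305) = true := by
  rw [tb_al] at h
  simp only [Bool.or_eq_true, Bool.and_eq_true, decide_eq_true_eq] at h
  rcases h with (((h | ⟨h1, h⟩) | ⟨h1, h⟩) | ⟨h1, h⟩) | ⟨h1, h⟩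
  · have := testBit_lt hm h
    have e : j % 305 = j := by omega
    exact ⟨by omega, by rw [e]; exact h⟩
  · have := testBit_lt hm h
    have e : j % 305 = j - 305 := by omega
    exact ⟨by omega, by rw [e]; exact h⟩
  · have := testBit_lt hm h
    have e : j % 305 = j - 610 := by omega
    exact ⟨by omega, by rw [e]; exact h⟩
  · have := testBit_lt hm h
    have e : j % 305 = j - 915 := by omega
    exact ⟨by omega, by rw [e]; exact h⟩
  · have := testBit_lt hm h
    have e : j % 305 = j - 1220 := by omega
    exact ⟨by omega, by rw [e]; exact h⟩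

/-- a candidate of `cr p m` on the pages `0 .. 4` is on a page different from `p` -/
theorem tb_cr {p m j : ℕ} (hm : m < 2 ^ 305) (h : (cr p m).testBit j = true) (hj : j / 305 < 5) :
    j / 305 ≠ p ∧ m.testBit (j % 305) = true := by
  rw [cr_eq, Nat.testBit_xor] at h
  by_cases h1 : (al m).testBit j = true
  · have h2 := al_bit hm h1
    refine ⟨fun h3 => ?_, h2.2⟩
    have h4 : (pg p m).testBit (305 * p + j % 305) = true := tb_pg' h2.2
    have h5 : 305 * p + j % 305 = j := by omega
    rw [h5] at h4
    rw [h1, h4] at h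
    exact absurd h (by decide)
  · have h1' : (al m).testBit j = false := by simpa using h1
    have h2 : (pg p m).testBit j = true := by
      by_contra h3
      have h3' : (pg p m).testBit j = false := by simpa using h3
      rw [h1', h3'] at h
      exact absurd h (by decide)
    have h3 := tb_pg hm h2
    have h4 : (al m).testBit (305 * (j / 305) + j % 305) = true := tb_al' h3.2 hj
    have h5 : 305 * (j / 305) + j % 305 = j := by omega
    rw [h5] at h4
    exact absurd h4 h1

theorem tb_cr' {p m q s : ℕ} (hm : m < 2 ^ 305) (h : m.testBit s = true) (hq : q < 5)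
    (hqp : q ≠ p) : (cr p m).testBit (305 * q + s) = true := by
  rw [cr_eq, Nat.testBit_xor, tb_al' h hq, pg_ne hm (testBit_lt hm h) hqp]
  rfl

end Pool.Agent.Lib.MP_a966e6_co.PNU.Neg5
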