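import Mathlib
import Pool.Agent.Lib.MP_a966e6_co.PNU.Neg.Def

/-!
Local consequences of the structure `TCol 5 c`.
-/

set_option autoImplicit false

namespace Pool.Agent.Lib.MP_a966e6_co.PNU.Neg5

/-- the triangle `a b d` has colour `p` -/
def Mono (c : ℕ → ℕ → ℕ) (p a b d : ℕ) : Prop := c a b = p ∧ c b d = p ∧ c a d = p

variable {c : ℕ → ℕ → ℕ}

theorem per15 (hc : TCol 5 c) (x y : ℕ) : c x y = c (x % 15) (y % 15) := hc.per x y

theorem col_lt (hc : TCol 5 c) {x y : ℕ} (h : x % 15 ≠ y % 15) : c x y < 5 := by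
  rw [per15 hc]
  exact hc.lt _ _ (Nat.mod_lt _ (by norm_num)) (Nat.mod_lt _ (by norm_num)) h

/-- two chords `v y`, `v z` of length at most `5` on the same side have different colours -/
theorem sib_sound (hc : TCol 5 c) {v y z : ℕ} (hv : v < 15) (hy : y < 15) (hz : z < 15)
    (hvy : v ≠ y) (hvz : v ≠ z) (hyz : y ≠ z)
    (h : ((y + 15 - v) % 15 < 6 ∧ (z + 15 - v) % 15 < 6) ∨
      ((v + 15 - y) % 15 < 6 ∧ (v + 15 - z) % 15 < 6)) : c v y ≠ c v z := by
  rcases h with ⟨h1, h2⟩ | ⟨h1, h2⟩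
  · have ey : c v y = c v (v + (y + 15 - v) % 15) := by
      rw [per15 hc v y, per15 hc v (v + (y + 15 - v) % 15)]
      congr 1
      omega
    have ez : c v z = c v (v + (z + 15 - v) % 15) := by
      rw [per15 hc v z, per15 hc v (v + (z + 15 - v) % 15)]
      congr 1
      omega
    rw [ey, ez]
    rcases lt_or_ge ((y + 15 - v) % 15) ((z + 15 - v) % 15) with h3 | h3
    · exact hc.t2 v _ _ (by omega) h3 (by omega)
    · exact (hc.t2 v _ _ (by omega) (by omega) (by omega)).symm
  · have ey : c v y = c v (v + (3 * 5 - (v + 15 - y) % 15)) := by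
      rw [per15 hc v y, per15 hc v (v + (3 * 5 - (v + 15 - y) % 15))]
      congr 1
      omega
    have ez : c v z = c v (v + (3 * 5 - (v + 15 - z) % 15)) := by
      rw [per15 hc v z, per15 hc v (v + (3 * 5 - (v + 15 - z) % 15))]
      congr 1
      omega
    rw [ey, ez]
    rcases lt_or_ge ((v + 15 - y) % 15) ((v + 15 - z) % 15) with h3 | h3
    · exact hc.t2' v _ _ (by omega) h3 (by omega)
    · exact (hc.t2' v _ _ (by omega) (by omega) (by omega)).symm

/-- the chord `x y` crosses the triangle `a b d` and has an end in common with it -/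
def CrossT (x y a b d : ℕ) : Prop :=
  (x = a ∧ b < y ∧ y < d) ∨ (y = b ∧ x < a) ∨ (x = b ∧ d < y) ∨ (y = d ∧ a < x ∧ x < b)

theorem cross_sound (hc : TCol 5 c) {p x y a b d : ℕ} (hab : a < b) (hbd : b < d) (hd : d < 15)
    (hy : y < 15) (hm : Mono c p a b d) (hxy : c x y = p) (h : CrossT x y a b d) : False := by
  obtain ⟨m1, m2, m3⟩ := hm
  rcases h with ⟨rfl, h1, h2⟩ | ⟨rfl, h1⟩ | ⟨rfl, h1⟩ | ⟨rfl, h1, h2⟩
  · exact (hc.t4 x b y d hab h1 h2 (by omega) (by rw [hxy, m2])).1 (by rw [m1, hxy])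
  · exact (hc.t4 x a y d h1 hab hbd (by omega) (by rw [hxy, m3])).2.1 (by rw [m1, hxy])
  · exact (hc.t4 a x d y hab hbd h1 (by omega) (by rw [hxy, m3])).1 (by rw [m1, m3])
  · exact (hc.t4 a x b y h1 h2 hbd (by omega) (by rw [hxy, m1])).2.2.1 (by rw [m2, m1])

/-- the condition on two chords with a common end, see `sib_sound` -/
def Sib (v y z : ℕ) : Prop := y ≠ z ∧ (((y + 15 - v) % 15 < 6 ∧ (z + 15 - v) % 15 < 6) ∨
  ((v + 15 - y) % 15 < 6 ∧ (v + 15 - z) % 15 < 6))

/-- the chord `x y` and the triangle `a b d` cannot have the same colour -/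
def Bad (x y a b d : ℕ) : Prop :=
  CrossT x y a b d ∨ (x = a ∧ (Sib a y b ∨ Sib a y d)) ∨ (x = b ∧ (Sib b y a ∨ Sib b y d)) ∨
    (x = d ∧ (Sib d y a ∨ Sib d y b)) ∨ (y = a ∧ (Sib a x b ∨ Sib a x d)) ∨
    (y = b ∧ (Sib b x a ∨ Sib b x d)) ∨ (y = d ∧ (Sib d x a ∨ Sib d x b))

theorem sib_col (hc : TCol 5 c) {v y z : ℕ} (hv : v < 15) (hy : y < 15) (hz : z < 15)
    (hvy : v ≠ y) (hvz : v ≠ z) (h : Sib v y z) : c v y ≠ c v z :=
  sib_sound hc hv hy hz hvy hvz h.1 h.2

theorem bad_sound (hc : TCol 5 c) {p x y a b d : ℕ} (hab : a < b) (hbd : b < d) (hd : d < 15)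
    (hxy' : x < y) (hy : y < 15) (hm : Mono c p a b d) (hxy : c x y = p)
    (h : Bad x y a b d) : False := by
  obtain ⟨m1, m2, m3⟩ := hm
  rcases h with h | ⟨rfl, h⟩ | ⟨rfl, h⟩ | ⟨rfl, h⟩ | ⟨rfl, h⟩ | ⟨rfl, h⟩ | ⟨rfl, h⟩
  · exact cross_sound hc hab hbd hd hy ⟨m1, m2, m3⟩ hxy h
  · rcases h with h | h
    · exact sib_col hc (by omega) hy (by omega) (by omega) (by omega) h (by rw [hxy, m1])
    · exact sib_col hc (by omega) hy (by omega) (by omega) (by omega) h (by rw [hxy, m3])
  · rcases h with h | h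
    · exact sib_col hc (by omega) hy (by omega) (by omega) (by omega) h
        (by rw [hxy, hc.symm x a, m1])
    · exact sib_col hc (by omega) hy (by omega) (by omega) (by omega) h (by rw [hxy, m2])
  · rcases h with h | h
    · exact sib_col hc (by omega) hy (by omega) (by omega) (by omega) h
        (by rw [hxy, hc.symm x a, m3])
    · exact sib_col hc (by omega) hy (by omega) (by omega) (by omega) h
        (by rw [hxy, hc.symm x b, m2])
  · rcases h with h | h
    · exact sib_col hc (by omega) (by omega) (by omega) (by omega) (by omega) h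
        (by rw [hc.symm y x, hxy, m1])
    · exact sib_col hc (by omega) (by omega) (by omega) (by omega) (by omega) h
        (by rw [hc.symm y x, hxy, m3])
  · rcases h with h | h
    · exact sib_col hc (by omega) (by omega) (by omega) (by omega) (by omega) h
        (by rw [hc.symm y x, hxy, hc.symm y a, m1])
    · exact sib_col hc (by omega) (by omega) (by omega) (by omega) (by omega) h
        (by rw [hc.symm y x, hxy, m2])
  · rcases h with h | h
    · exact sib_col hc (by omega) (by omega) (by omega) (by omega) (by omega) h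
        (by rw [hc.symm y x, hxy, hc.symm y a, m3])
    · exact sib_col hc (by omega) (by omega) (by omega) (by omega) (by omega) h
        (by rw [hc.symm y x, hxy, hc.symm y b, m2])

/-- every colour occurs among the chords `(v, v + d)`, `1 ≤ d ≤ 5` -/
theorem out_ex (hc : TCol 5 c) (v : ℕ) {p : ℕ} (hp : p < 5) :
    ∃ d, 1 ≤ d ∧ d ≤ 5 ∧ c v (v + d) = p := by
  let f : Fin 5 → Fin 5 := fun i => ⟨c v (v + (i.val + 1)), col_lt hc (by have := i.2; omega)⟩
  have hf : Function.Injective f := by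
    intro i j hij
    have h : c v (v + (i.val + 1)) = c v (v + (j.val + 1)) := congrArg Fin.val hij
    apply Fin.ext
    have hi := i.2
    have hj := j.2
    rcases lt_trichotomy i.val j.val with h1 | h1 | h1
    · exact absurd h (hc.t2 v _ _ (by omega) (by omega) (by omega))
    · exact h1
    · exact absurd h.symm (hc.t2 v _ _ (by omega) (by omega) (by omega))
  obtain ⟨i, hi⟩ := (Finite.injective_iff_surjective.1 hf) ⟨p, hp⟩
  exact ⟨i.val + 1, by omega, by have := i.2; omega, congrArg Fin.val hi⟩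

/-- every colour occurs among the chords `(v - d, v)`, `1 ≤ d ≤ 5` -/
theorem in_ex (hc : TCol 5 c) (v : ℕ) {p : ℕ} (hp : p < 5) :
    ∃ d, 1 ≤ d ∧ d ≤ 5 ∧ c v (v + (15 - d)) = p := by
  let f : Fin 5 → Fin 5 := fun i => ⟨c v (v + (15 - (i.val + 1))), col_lt hc (by
    have := i.2
    omega)⟩
  have hf : Function.Injective f := by
    intro i j hij
    have h : c v (v + (15 - (i.val + 1))) = c v (v + (15 - (j.val + 1))) := congrArg Fin.val hij
    apply Fin.ext
    have hi := i.2
    have hj := j.2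
    rcases lt_trichotomy i.val j.val with h1 | h1 | h1
    · exact absurd h (hc.t2' v _ _ (by omega) (by omega) (by omega))
    · exact h1
    · exact absurd h.symm (hc.t2' v _ _ (by omega) (by omega) (by omega))
  obtain ⟨i, hi⟩ := (Finite.injective_iff_surjective.1 hf) ⟨p, hp⟩
  exact ⟨i.val + 1, by omega, by have := i.2; omega, congrArg Fin.val hi⟩

/-- the third vertex of the triangle on the left side of the chord `(u, u + e)` -/
theorem apex (hc : TCol 5 c) (u : ℕ) {e : ℕ} (h1 : 1 ≤ e) (h2 : e ≤ 9) :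
    ∃ w, e < w ∧ w < 15 ∧ w - e ≤ 9 ∧ 15 - w ≤ 9 ∧ c u (u + w) = c u (u + e) ∧
      c (u + e) (u + w) = c u (u + e) := by
  have hp : c u (u + e) < 5 := col_lt hc (by omega)
  obtain ⟨d, hd1, hd2, hd⟩ := in_ex hc u hp
  have hex : ∃ w, e < w ∧ w < 15 ∧ c u (u + w) = c u (u + e) :=
    ⟨15 - d, by omega, by omega, hd⟩
  classical
  let w := Nat.find hex
  obtain ⟨hw1, hw2, hw3⟩ : e < w ∧ w < 15 ∧ c u (u + w) = c u (u + e) := Nat.find_spec hex
  have hmin : ∀ z, e < z → z < w → c u (u + z) ≠ c u (u + e) := by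
    intro z hz1 hz2 hz3
    exact Nat.find_min hex hz2 ⟨hz1, by omega, hz3⟩
  have hw4 : c (u + e) (u + w) = c u (u + e) :=
    hc.t3 u e w h1 hw1 (by omega) hw3.symm hmin
  refine ⟨w, hw1, hw2, ?_, ?_, hw3, hw4⟩
  · by_contra hcon
    refine hc.t2 (u + w) (15 - w) (15 - w + e) (by omega) (by omega) (by omega) ?_
    have e1 : c (u + w) (u + w + (15 - w)) = c (u + w) u := by
      rw [per15 hc, per15 hc (u + w) u]
      congr 1
      omega
    have e2 : c (u + w) (u + w + (15 - w + e)) = c (u + w) (u + e) := by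
      rw [per15 hc, per15 hc (u + w) (u + e)]
      congr 1
      omega
    rw [e1, e2, hc.symm (u + w) u, hc.symm (u + w) (u + e), hw3, hw4]
  · by_contra hcon
    exact hc.t2 u e w h1 hw1 (by omega) hw3.symm

end Pool.Agent.Lib.MP_a966e6_co.PNU.Neg5
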