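import Pool.Agent.Lib.MP_a966e6_co.PNU.Neg5.Core

/-!
Boolean tests on the tables.
-/

set_option autoImplicit false

namespace Pool.Agent.Lib.MP_a966e6_co.PNU.Neg5

/-- `f i` for all `i < n` -/
noncomputable def allB (n : Nat) (f : Nat → Bool) : Bool :=
  Nat.rec (motive := fun _ => Bool) true (fun i ih => cond (f i) ih false) n

/-- union of the masks `f i`, `i < n` -/
noncomputable def orB (n : Nat) (f : Nat → Nat) : Nat :=
  Nat.rec (motive := fun _ => Nat) (nat_lit 0) (fun i ih => Nat.lor (f i) ih) n

/-- bit `i` of `m` -/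
noncomputable def tb (m i : Nat) : Bool :=
  Nat.beq (Nat.mod (Nat.shiftRight m i) (nat_lit 2)) (nat_lit 1)

/-- Boolean implication -/
noncomputable def imB (a b : Bool) : Bool := cond a b true

/-- first vertex of a triangle or chord -/
noncomputable def fst (m : Nat) : Nat := Nat.mod m (nat_lit 16)

/-- second vertex of a triangle or chord -/
noncomputable def snd (m : Nat) : Nat := Nat.mod (Nat.div m (nat_lit 16)) (nat_lit 16)

/-- third vertex of a triangle -/
noncomputable def thd (m : Nat) : Nat := Nat.div m (nat_lit 256)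

/-- Boolean form of `Sib` -/
noncomputable def sibB (v y z : Nat) : Bool :=
  cond (Nat.beq y z) false
    (or (and (Nat.ble (Nat.mod (Nat.sub (Nat.add y (nat_lit 15)) v) (nat_lit 15)) (nat_lit 5))
        (Nat.ble (Nat.mod (Nat.sub (Nat.add z (nat_lit 15)) v) (nat_lit 15)) (nat_lit 5)))
      (and (Nat.ble (Nat.mod (Nat.sub (Nat.add v (nat_lit 15)) y) (nat_lit 15)) (nat_lit 5))
        (Nat.ble (Nat.mod (Nat.sub (Nat.add v (nat_lit 15)) z) (nat_lit 15)) (nat_lit 5))))

/-- Boolean form of `<` -/
noncomputable def ltB (a b : Nat) : Bool := Nat.ble (Nat.succ a) b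

/-- Boolean form of `Bad` -/
noncomputable def badB (x y a b d : Nat) : Bool :=
  or (and (Nat.beq x a) (or (and (ltB b y) (ltB y d)) (or (sibB a y b) (sibB a y d))))
  (or (and (Nat.beq y b) (or (ltB x a) (or (sibB b x a) (sibB b x d))))
  (or (and (Nat.beq x b) (or (ltB d y) (or (sibB b y a) (sibB b y d))))
  (or (and (Nat.beq y d) (or (and (ltB a x) (ltB x b)) (or (sibB d x a) (sibB d x b))))
  (or (and (Nat.beq x d) (or (sibB d y a) (sibB d y b)))
    (and (Nat.beq y a) (or (sibB a x b) (sibB a x d)))))))

/-- the chord with code `e` is a side of the triangle with code `t` -/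
noncomputable def sideB (e t : Nat) : Bool :=
  or (and (Nat.beq (fst e) (fst t)) (or (Nat.beq (snd e) (snd t)) (Nat.beq (snd e) (thd t))))
    (and (Nat.beq (fst e) (snd t)) (Nat.beq (snd e) (thd t)))

/-- test of the triangle and chord codes -/
noncomputable def testT : Bool :=
  and (allB (nat_lit 305) fun t => and (ltB (fst (tT.get t)) (snd (tT.get t)))
      (and (ltB (snd (tT.get t)) (thd (tT.get t))) (ltB (thd (tT.get t)) (nat_lit 15))))
    (allB (nat_lit 105) fun e => and (ltB (fst (tE.get e)) (snd (tE.get e)))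
      (ltB (snd (tE.get e)) (nat_lit 15)))

/-- test of the masks `tC` and `tZ` -/
noncomputable def testC : Bool :=
  allB (nat_lit 105) fun e => allB (nat_lit 305) fun t =>
    and (cond (tb (tC.get e) t) (sideB (tE.get e) (tT.get t))
        (cond (sideB (tE.get e) (tT.get t)) false true))
      (imB (tb (tZ.get e) t) (badB (fst (tE.get e)) (snd (tE.get e)) (fst (tT.get t))
        (snd (tT.get t)) (thd (tT.get t))))

/-- test of the masks `tX` and `tY` -/
noncomputable def testX : Bool :=
  allB (nat_lit 305) fun t =>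
    and (Nat.beq (Nat.land (tX.get t) (orB (nat_lit 105) fun e =>
        Nat.lor (cond (tb (tZ.get e) t) (tC.get e) (nat_lit 0))
          (cond (tb (tC.get e) t) (tZ.get e) (nat_lit 0)))) (tX.get t))
      (Nat.beq (Nat.land (tY.get t) (orB (nat_lit 105) fun e =>
        cond (tb (tC.get e) t) (tC.get e) (nat_lit 0))) (tY.get t))

/-- the masks are smaller than `2 ^ 305` -/
noncomputable def testS : Bool :=
  and (allB (nat_lit 305) fun t => and (Nat.beq (Nat.shiftRight (tX.get t) (nat_lit 305)) (nat_lit 0))
      (Nat.beq (Nat.shiftRight (tY.get t) (nat_lit 305)) (nat_lit 0)))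
    (allB (nat_lit 105) fun e => and (Nat.beq (Nat.shiftRight (tC.get e) (nat_lit 305)) (nat_lit 0))
      (Nat.beq (Nat.shiftRight (tZ.get e) (nat_lit 305)) (nat_lit 0)))

/-- the directed chord `(u, v)` of length `e` is a side of triangle number `t`: test of the
constraints -/
noncomputable def gB (t u v e : Nat) : Bool :=
  allB (nat_lit 5) fun p =>
    and (tb (tG.get (Nat.pred (Nat.add (Nat.mul (nat_lit 9) u) e))) (Nat.add (Nat.mul (nat_lit 305) p) t))
      (imB (Nat.ble e (nat_lit 5))
        (and (tb (tG.get (Nat.add (nat_lit 135) (Nat.add (Nat.mul (nat_lit 30) p)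
            (Nat.mul (nat_lit 2) u)))) (Nat.add (Nat.mul (nat_lit 305) p) t))
          (tb (tG.get (Nat.add (nat_lit 136) (Nat.add (Nat.mul (nat_lit 30) p)
            (Nat.mul (nat_lit 2) v)))) (Nat.add (Nat.mul (nat_lit 305) p) t))))

/-- test of the masks `tG` -/
noncomputable def testG : Bool :=
  allB (nat_lit 305) fun t =>
    and (gB t (fst (tT.get t)) (snd (tT.get t)) (Nat.sub (snd (tT.get t)) (fst (tT.get t))))
      (and (gB t (snd (tT.get t)) (thd (tT.get t)) (Nat.sub (thd (tT.get t)) (snd (tT.get t))))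
        (gB t (thd (tT.get t)) (fst (tT.get t))
          (Nat.sub (Nat.add (nat_lit 15) (fst (tT.get t))) (thd (tT.get t)))))

/-- some triangle has the code `m` -/
noncomputable def exT (m : Nat) : Bool :=
  Nat.rec (motive := fun _ => Bool) false (fun t ih => cond (Nat.beq (tT.get t) m) true ih)
    (nat_lit 305)

/-- every triangle with sides of length at most `9` occurs -/
noncomputable def testE : Bool :=
  allB (nat_lit 15) fun d => allB d fun b => allB b fun a =>
    imB (and (Nat.ble (Nat.sub b a) (nat_lit 9)) (and (Nat.ble (Nat.sub d b) (nat_lit 9))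
      (Nat.ble (Nat.sub (Nat.add a (nat_lit 15)) d) (nat_lit 9))))
      (exT (Nat.add a (Nat.add (Nat.mul (nat_lit 16) b) (Nat.mul (nat_lit 256) d))))

end Pool.Agent.Lib.MP_a966e6_co.PNU.Neg5
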