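import Mathlib
import Pool.Agent.Lib.MP_a966e6_co.PNU.Neg5.TestB

/-!
The meaning of the Boolean tests.
-/

set_option autoImplicit false

namespace Pool.Agent.Lib.MP_a966e6_co.PNU.Neg5

theorem allB_spec {n : ℕ} {f : ℕ → Bool} (h : allB n f = true) : ∀ i < n, f i = true := by
  induction n with
  | zero => intro i hi; omega
  | succ n ih =>
    have h1 : cond (f n) (allB n f) false = true := h
    intro i hi
    cases hf : f n with
    | false =>
      rw [hf] at h1
      exact Bool.noConfusion (show false = true from h1)
    | true =>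
      rw [hf] at h1
      rcases Nat.lt_succ_iff_lt_or_eq.1 hi with h2 | rfl
      · exact ih h1 i h2
      · exact hf

theorem orB_spec {n : ℕ} {f : ℕ → ℕ} {j : ℕ} (h : (orB n f).testBit j = true) :
    ∃ i < n, (f i).testBit j = true := by
  induction n with
  | zero =>
    have h1 : (0 : ℕ).testBit j = true := h
    simp at h1
  | succ n ih =>
    have h1 : (f n ||| orB n f).testBit j = true := h
    rw [Nat.testBit_or, Bool.or_eq_true] at h1
    rcases h1 with h1 | h1
    · exact ⟨n, Nat.lt_succ_self n, h1⟩
    · obtain ⟨i, hi, h2⟩ := ih h1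
      exact ⟨i, by omega, h2⟩

theorem tb_eq (m i : ℕ) : tb m i = m.testBit i := by
  have h : tb m i = Nat.beq ((m >>> i) % 2) 1 := rfl
  rw [h, Nat.testBit_eq_decide_div_mod_eq, Nat.shiftRight_eq_div_pow]
  cases hb : Nat.beq (m / 2 ^ i % 2) 1 with
  | true =>
    have := Nat.eq_of_beq_eq_true hb
    simp [this]
  | false =>
    have := Nat.ne_of_beq_eq_false hb
    simp [this]

theorem imB_spec {a b : Bool} (h : imB a b = true) (ha : a = true) : b = true := by
  subst ha
  exact h

theorem and_spec {a b : Bool} (h : and a b = true) : a = true ∧ b = true := by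
  revert h
  cases a <;> cases b <;> decide

theorem or_spec {a b : Bool} (h : or a b = true) : a = true ∨ b = true := by
  revert h
  cases a <;> cases b <;> decide

theorem sub_spec {x y j : ℕ} (h : Nat.beq (Nat.land x y) x = true) (hx : x.testBit j = true) :
    y.testBit j = true := by
  have h1 : x &&& y = x := Nat.eq_of_beq_eq_true h
  rw [← h1, Nat.testBit_and, Bool.and_eq_true] at hx
  exact hx.2

end Pool.Agent.Lib.MP_a966e6_co.PNU.Neg5
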