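import Pool.Agent.Lib.MP_a966e6_co.PNU.Neg5.TestB

/-!
The tables pass the tests (second part).
-/

set_option autoImplicit false

namespace Pool.Agent.Lib.MP_a966e6_co.PNU.Neg5

theorem testC_ok : testC = true := by decide +kernel

end Pool.Agent.Lib.MP_a966e6_co.PNU.Neg5
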