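import Mathlib
import Pool.Agent.Lib.MP_a966e6_co.PNU.Neg5.Loc
import Pool.Agent.Lib.MP_a966e6_co.PNU.Neg5.Bits
import Pool.Agent.Lib.MP_a966e6_co.PNU.Neg5.Test
import Pool.Agent.Lib.MP_a966e6_co.PNU.Neg5.TestRun
import Pool.Agent.Lib.MP_a966e6_co.PNU.Neg5.TestC

/-!
Soundness of the checker.
-/

set_option autoImplicit false

namespace Pool.Agent.Lib.MP_a966e6_co.PNU.Neg5

/-- triangle number `t` has colour `p` -/
def MonoT (c : ℕ → ℕ → ℕ) (p t : ℕ) : Prop :=
  Mono c p (fst (tT.get t)) (snd (tT.get t)) (thd (tT.get t))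

/-- the candidate `i` is true -/
def Hold (c : ℕ → ℕ → ℕ) (i : ℕ) : Prop := MonoT c (i / 305) (i % 305)

/-- chord number `e` has colour `p` -/
def ColE (c : ℕ → ℕ → ℕ) (p e : ℕ) : Prop := c (fst (tE.get e)) (snd (tE.get e)) = p

/-- the clause `M` is true -/
def Val (c : ℕ → ℕ → ℕ) (M : ℕ) : Prop := ∃ i, M.testBit i = true ∧ Hold c i

theorem ltB_spec {a b : ℕ} (h : ltB a b = true) : a < b := Nat.le_of_ble_eq_true h

theorem beq_spec {a b : ℕ} (h : Nat.beq a b = true) : a = b := Nat.eq_of_beq_eq_true h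

theorem tri_ok {t : ℕ} (ht : t < 305) : fst (tT.get t) < snd (tT.get t) ∧
    snd (tT.get t) < thd (tT.get t) ∧ thd (tT.get t) < 15 := by
  have h1 := allB_spec (and_spec testT_ok).1 t ht
  have h2 := and_spec h1
  have h3 := and_spec h2.2
  exact ⟨ltB_spec h2.1, ltB_spec h3.1, ltB_spec h3.2⟩

theorem chord_ok {e : ℕ} (he : e < 105) : fst (tE.get e) < snd (tE.get e) ∧
    snd (tE.get e) < 15 := by
  have h1 := and_spec (allB_spec (and_spec testT_ok).2 e he)
  exact ⟨ltB_spec h1.1, ltB_spec h1.2⟩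

theorem small_of {m : ℕ} (h : Nat.beq (Nat.shiftRight m (nat_lit 305)) (nat_lit 0) = true) :
    m < 2 ^ 305 := by
  have h1 : m >>> 305 = 0 := beq_spec h
  rw [Nat.shiftRight_eq_div_pow] at h1
  exact (Nat.div_eq_zero_iff_lt (by positivity)).1 h1

theorem small_X {t : ℕ} (ht : t < 305) : tX.get t < 2 ^ 305 :=
  small_of (and_spec (allB_spec (and_spec testS_ok).1 t ht)).1

theorem small_Y {t : ℕ} (ht : t < 305) : tY.get t < 2 ^ 305 :=
  small_of (and_spec (allB_spec (and_spec testS_ok).1 t ht)).2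

theorem small_C {e : ℕ} (he : e < 105) : tC.get e < 2 ^ 305 :=
  small_of (and_spec (allB_spec (and_spec testS_ok).2 e he)).1

theorem small_Z {e : ℕ} (he : e < 105) : tZ.get e < 2 ^ 305 :=
  small_of (and_spec (allB_spec (and_spec testS_ok).2 e he)).2

theorem side_spec {e t : ℕ} (h : sideB e t = true) :
    (fst e = fst t ∧ snd e = snd t) ∨ (fst e = fst t ∧ snd e = thd t) ∨
      (fst e = snd t ∧ snd e = thd t) := by
  rcases or_spec h with h | h
  · have h1 := and_spec h
    rcases or_spec h1.2 with h2 | h2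
    · exact Or.inl ⟨beq_spec h1.1, beq_spec h2⟩
    · exact Or.inr (Or.inl ⟨beq_spec h1.1, beq_spec h2⟩)
  · have h1 := and_spec h
    exact Or.inr (Or.inr ⟨beq_spec h1.1, beq_spec h1.2⟩)

theorem side_iff {e t : ℕ} (h : (fst e = fst t ∧ snd e = snd t) ∨ (fst e = fst t ∧ snd e = thd t) ∨
    (fst e = snd t ∧ snd e = thd t)) : sideB e t = true := by
  have bt : ∀ a : ℕ, Nat.beq a a = true := fun a => Nat.beq_refl a
  unfold sideB
  rcases h with ⟨h1, h2⟩ | ⟨h1, h2⟩ | ⟨h1, h2⟩ <;> rw [h1, h2] <;> simp [bt]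

variable {c : ℕ → ℕ → ℕ}

theorem side_col {e t p : ℕ} (h : sideB (tE.get e) (tT.get t) = true) (hm : MonoT c p t) :
    ColE c p e := by
  obtain ⟨m1, m2, m3⟩ := hm
  unfold ColE
  rcases side_spec h with ⟨h1, h2⟩ | ⟨h1, h2⟩ | ⟨h1, h2⟩ <;> rw [h1, h2] <;> assumption

theorem C_iff {e t : ℕ} (he : e < 105) (ht : t < 305) :
    (tC.get e).testBit t = sideB (tE.get e) (tT.get t) := by
  have h1 := (and_spec (allB_spec (allB_spec testC_ok e he) t ht)).1
  rw [tb_eq] at h1
  revert h1
  cases (tC.get e).testBit t <;> cases sideB (tE.get e) (tT.get t) <;> simp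

theorem C_col {e t p : ℕ} (he : e < 105) (ht : t < 305) (h : (tC.get e).testBit t = true)
    (hm : MonoT c p t) : ColE c p e := by
  rw [C_iff he ht] at h
  exact side_col h hm

theorem sibB_spec {v y z : ℕ} (h : sibB v y z = true) : Sib v y z := by
  unfold sibB at h
  cases hyz : Nat.beq y z with
  | true =>
    rw [hyz] at h
    exact Bool.noConfusion (show false = true from h)
  | false =>
    rw [hyz] at h
    refine ⟨Nat.ne_of_beq_eq_false hyz, ?_⟩
    rcases or_spec (show or _ _ = true from h) with h | h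
    · have h1 := and_spec h
      exact Or.inl ⟨Nat.lt_succ_of_le (Nat.le_of_ble_eq_true h1.1),
        Nat.lt_succ_of_le (Nat.le_of_ble_eq_true h1.2)⟩
    · have h1 := and_spec h
      exact Or.inr ⟨Nat.lt_succ_of_le (Nat.le_of_ble_eq_true h1.1),
        Nat.lt_succ_of_le (Nat.le_of_ble_eq_true h1.2)⟩

theorem badB_spec {x y a b d : ℕ} (h : badB x y a b d = true) : Bad x y a b d := by
  unfold Bad CrossT
  rcases or_spec h with h | h
  · have h1 := and_spec h
    have e1 := beq_spec h1.1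
    rcases or_spec h1.2 with h2 | h2
    · have h3 := and_spec h2
      exact Or.inl (Or.inl ⟨e1, ltB_spec h3.1, ltB_spec h3.2⟩)
    · rcases or_spec h2 with h3 | h3
      · exact Or.inr (Or.inl ⟨e1, Or.inl (sibB_spec h3)⟩)
      · exact Or.inr (Or.inl ⟨e1, Or.inr (sibB_spec h3)⟩)
  rcases or_spec h with h | h
  · have h1 := and_spec h
    have e1 := beq_spec h1.1
    rcases or_spec h1.2 with h2 | h2
    · exact Or.inl (Or.inr (Or.inl ⟨e1, ltB_spec h2⟩))
    · rcases or_spec h2 with h3 | h3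
      · exact Or.inr (Or.inr (Or.inr (Or.inr (Or.inr (Or.inl ⟨e1, Or.inl (sibB_spec h3)⟩)))))
      · exact Or.inr (Or.inr (Or.inr (Or.inr (Or.inr (Or.inl ⟨e1, Or.inr (sibB_spec h3)⟩)))))
  rcases or_spec h with h | h
  · have h1 := and_spec h
    have e1 := beq_spec h1.1
    rcases or_spec h1.2 with h2 | h2
    · exact Or.inl (Or.inr (Or.inr (Or.inl ⟨e1, ltB_spec h2⟩)))
    · rcases or_spec h2 with h3 | h3
      · exact Or.inr (Or.inr (Or.inl ⟨e1, Or.inl (sibB_spec h3)⟩))
      · exact Or.inr (Or.inr (Or.inl ⟨e1, Or.inr (sibB_spec h3)⟩))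
  rcases or_spec h with h | h
  · have h1 := and_spec h
    have e1 := beq_spec h1.1
    rcases or_spec h1.2 with h2 | h2
    · have h3 := and_spec h2
      exact Or.inl (Or.inr (Or.inr (Or.inr ⟨e1, ltB_spec h3.1, ltB_spec h3.2⟩)))
    · rcases or_spec h2 with h3 | h3
      · exact Or.inr (Or.inr (Or.inr (Or.inr (Or.inr (Or.inr ⟨e1, Or.inl (sibB_spec h3)⟩)))))
      · exact Or.inr (Or.inr (Or.inr (Or.inr (Or.inr (Or.inr ⟨e1, Or.inr (sibB_spec h3)⟩)))))
  rcases or_spec h with h | h
  · have h1 := and_spec h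
    have e1 := beq_spec h1.1
    rcases or_spec h1.2 with h3 | h3
    · exact Or.inr (Or.inr (Or.inr (Or.inl ⟨e1, Or.inl (sibB_spec h3)⟩)))
    · exact Or.inr (Or.inr (Or.inr (Or.inl ⟨e1, Or.inr (sibB_spec h3)⟩)))
  · have h1 := and_spec h
    have e1 := beq_spec h1.1
    rcases or_spec h1.2 with h3 | h3
    · exact Or.inr (Or.inr (Or.inr (Or.inr (Or.inl ⟨e1, Or.inl (sibB_spec h3)⟩))))
    · exact Or.inr (Or.inr (Or.inr (Or.inr (Or.inl ⟨e1, Or.inr (sibB_spec h3)⟩))))

theorem Z_sound (hc : TCol 5 c) {e t p : ℕ} (he : e < 105) (ht : t < 305)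
    (h : (tZ.get e).testBit t = true) (hm : MonoT c p t) (he' : ColE c p e) : False := by
  have h1 := (and_spec (allB_spec (allB_spec testC_ok e he) t ht)).2
  have h2 := badB_spec (imB_spec h1 (by rw [tb_eq]; exact h))
  obtain ⟨k1, k2, k3⟩ := tri_ok ht
  obtain ⟨k4, k5⟩ := chord_ok he
  exact bad_sound hc k1 k2 k3 k4 k5 hm he' h2

theorem zero_bit {j : ℕ} (h : (0 : ℕ).testBit j = true) : False := by
  simp at h

theorem X_sound (hc : TCol 5 c) {t s p : ℕ} (ht : t < 305) (hs : s < 305)
    (h : (tX.get t).testBit s = true) (hmt : MonoT c p t) (hms : MonoT c p s) : False := by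
  have h1 := sub_spec (and_spec (allB_spec testX_ok t ht)).1 h
  obtain ⟨e, he, h2⟩ := orB_spec h1
  have h3 : (cond (tb (tZ.get e) t) (tC.get e) 0 ||| cond (tb (tC.get e) t) (tZ.get e) 0).testBit s
    = true := h2
  rw [Nat.testBit_or, Bool.or_eq_true, tb_eq, tb_eq] at h3
  rcases h3 with h3 | h3
  · cases h4 : (tZ.get e).testBit t with
    | false => rw [h4] at h3; exact zero_bit h3
    | true =>
      rw [h4] at h3
      exact Z_sound hc he ht h4 hmt (C_col he hs h3 hms)
  · cases h4 : (tC.get e).testBit t with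
    | false => rw [h4] at h3; exact zero_bit h3
    | true =>
      rw [h4] at h3
      exact Z_sound hc he hs h3 hms (C_col he ht h4 hmt)

theorem Y_sound {t s p q : ℕ} (ht : t < 305) (hs : s < 305)
    (h : (tY.get t).testBit s = true) (hmt : MonoT c p t) (hms : MonoT c q s) : p = q := by
  have h1 := sub_spec (and_spec (allB_spec testX_ok t ht)).2 h
  obtain ⟨e, he, h2⟩ := orB_spec h1
  have h3 : (cond (tb (tC.get e) t) (tC.get e) 0).testBit s = true := h2
  rw [tb_eq] at h3
  cases h4 : (tC.get e).testBit t with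
  | false => rw [h4] at h3; exact (zero_bit h3).elim
  | true =>
    rw [h4] at h3
    have h5 : ColE c p e := C_col he ht h4 hmt
    have h6 : ColE c q e := C_col he hs h3 hms
    unfold ColE at h5 h6
    rw [← h5, ← h6]

theorem hold_lt (hc : TCol 5 c) {i : ℕ} (h : Hold c i) : i / 305 < 5 := by
  obtain ⟨k1, k2, k3⟩ := tri_ok (Nat.mod_lt i (by norm_num : 305 > 0))
  rw [← h.1]
  exact col_lt hc (by omega)

theorem cT_eq (i : ℕ) : cT i = pg (i / 305) (tX.get (i % 305)) ||| cr (i / 305) (tY.get (i % 305)) :=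
  rfl

theorem cT_sound (hc : TCol 5 c) {i j : ℕ} (h : (cT i).testBit j = true) (hi : Hold c i)
    (hj : Hold c j) : False := by
  have hi' : i % 305 < 305 := Nat.mod_lt i (by norm_num)
  have hj' : j % 305 < 305 := Nat.mod_lt j (by norm_num)
  rw [cT_eq, Nat.testBit_or, Bool.or_eq_true] at h
  rcases h with h | h
  · obtain ⟨h1, h2⟩ := tb_pg (small_X hi') h
    refine X_sound hc hi' hj' h2 hi ?_
    rw [← h1]
    exact hj
  · obtain ⟨h1, h2⟩ := tb_cr (small_Y hi') h (hold_lt hc hj)
    exact h1 (Y_sound hi' hj' h2 hi hj).symm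

theorem one_bit {i j : ℕ} (h : (Nat.shiftLeft 1 i).testBit j = true) : j = i := by
  have h1 : ((1 : ℕ) <<< i).testBit j = true := h
  rw [Nat.one_shiftLeft, Nat.testBit_two_pow, decide_eq_true_eq] at h1
  exact h1.symm

theorem one_bit' (i : ℕ) : (Nat.shiftLeft 1 i).testBit i = true := by
  show ((1 : ℕ) <<< i).testBit i = true
  rw [Nat.one_shiftLeft, Nat.testBit_two_pow]
  simp

/-- selection by kind -/
theorem sel_cases (k a b d e : ℕ) : (k = 0 ∧ sel k a b d e = a) ∨ (k = 1 ∧ sel k a b d e = b) ∨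
    (k = 2 ∧ sel k a b d e = d) ∨ (3 ≤ k ∧ sel k a b d e = e) := by
  rcases k with _ | _ | _ | k
  · exact Or.inl ⟨rfl, rfl⟩
  · exact Or.inr (Or.inl ⟨rfl, rfl⟩)
  · exact Or.inr (Or.inr (Or.inl ⟨rfl, rfl⟩))
  · exact Or.inr (Or.inr (Or.inr ⟨by omega, rfl⟩))

/-- the literal `L`, as a mask -/
theorem memF_eq (L : ℕ) : memF L = sel (L % 4) (Nat.shiftLeft 1 (L / 4))
    (pg (L / 4 / 105) (tC.get (L / 4 % 105))) (cr (L / 4 / 105) (tC.get (L / 4 % 105)))
    (cT (L / 4)) := rfl

theorem conF_eq (L : ℕ) : conF L = sel (L % 4) (cT (L / 4))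
    (pg (L / 4 / 105) (tZ.get (L / 4 % 105)) ||| cr (L / 4 / 105) (tC.get (L / 4 % 105)))
    (pg (L / 4 / 105) (tC.get (L / 4 % 105))) (Nat.shiftLeft 1 (L / 4)) := rfl

theorem lit_sound (hc : TCol 5 c) (L : ℕ) {i j : ℕ} (hi : (memF L).testBit i = true)
    (hHi : Hold c i) (hj : (conF L).testBit j = true) (hHj : Hold c j) : False := by
  have hi' : i % 305 < 305 := Nat.mod_lt i (by norm_num)
  have hj' : j % 305 < 305 := Nat.mod_lt j (by norm_num)
  have he : L / 4 % 105 < 105 := Nat.mod_lt _ (by norm_num)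
  rw [memF_eq] at hi
  rw [conF_eq] at hj
  rcases sel_cases (L % 4) (Nat.shiftLeft 1 (L / 4))
    (pg (L / 4 / 105) (tC.get (L / 4 % 105))) (cr (L / 4 / 105) (tC.get (L / 4 % 105)))
    (cT (L / 4)) with ⟨h0, h1⟩ | ⟨h0, h1⟩ | ⟨h0, h1⟩ | ⟨h0, h1⟩ <;> rw [h1] at hi <;>
  rcases sel_cases (L % 4) (cT (L / 4))
    (pg (L / 4 / 105) (tZ.get (L / 4 % 105)) ||| cr (L / 4 / 105) (tC.get (L / 4 % 105)))
    (pg (L / 4 / 105) (tC.get (L / 4 % 105))) (Nat.shiftLeft 1 (L / 4)) with
    ⟨h2, h3⟩ | ⟨h2, h3⟩ | ⟨h2, h3⟩ | ⟨h2, h3⟩ <;> rw [h3] at hj <;> try omega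
  · have e1 := one_bit hi
    rw [← e1] at hj
    exact cT_sound hc hj hHi hHj
  · obtain ⟨h4, h5⟩ := tb_pg (small_C he) hi
    have h6 : ColE c (L / 4 / 105) (L / 4 % 105) := by
      rw [← h4]
      exact C_col he hi' h5 hHi
    rw [Nat.testBit_or, Bool.or_eq_true] at hj
    rcases hj with hj | hj
    · obtain ⟨h7, h8⟩ := tb_pg (small_Z he) hj
      refine Z_sound hc he hj' h8 (p := L / 4 / 105) ?_ h6
      rw [← h7]
      exact hHj
    · obtain ⟨h7, h8⟩ := tb_cr (small_C he) hj (hold_lt hc hHj)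
      have h9 : ColE c (j / 305) (L / 4 % 105) := C_col he hj' h8 hHj
      unfold ColE at h6 h9
      exact h7 (by rw [← h9, h6])
  · obtain ⟨h4, h5⟩ := tb_cr (small_C he) hi (hold_lt hc hHi)
    have h6 : ColE c (i / 305) (L / 4 % 105) := C_col he hi' h5 hHi
    obtain ⟨h7, h8⟩ := tb_pg (small_C he) hj
    have h9 : ColE c (j / 305) (L / 4 % 105) := C_col he hj' h8 hHj
    unfold ColE at h6 h9
    exact h4 (by rw [← h6, h9, h7])
  · have e1 := one_bit hj
    rw [← e1] at hi
    exact cT_sound hc hi hHj hHi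

/-- every clause with number below `j` is true -/
def Good (c : ℕ → ℕ → ℕ) (tL : Tr) (j : ℕ) : Prop := ∀ h, h ≤ j → Val c (cl tL h)

theorem run_sound (hc : TCol 5 c) {tL : Tr} {j : ℕ} (hg : Good c tL j) (fuel : ℕ) :
    ∀ H F : ℕ, run tL j fuel H F = true → (∀ i, F.testBit i = true → ¬ Hold c i) → False := by
  induction fuel with
  | zero =>
    intro H F h _
    exact Bool.noConfusion (show false = true from h)
  | succ fuel ih =>
    intro H F h hF
    have h1 : (fc (Nat.mod H 67108864) fun D => fc (Nat.mod D 8192) fun h =>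
      fc (Nat.div D 8192) fun l => cond (Nat.ble h j)
        ((fun X => cond (Nat.beq l 0) (Nat.beq X 0)
          (cond (Nat.beq (Nat.land X (memS l)) X)
            (run tL j fuel (Nat.div H 67108864) (Nat.lor F (conS l))) false))
          (Nat.xor (cl tL h) (Nat.land (cl tL h) F))) false) = true := h
    rw [fc_eq, fc_eq, fc_eq] at h1
    generalize Nat.mod (Nat.mod H 67108864) 8192 = g at h1
    generalize Nat.div (Nat.mod H 67108864) 8192 = l at h1
    cases hgj : Nat.ble g j with
    | false =>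
      rw [hgj] at h1
      exact Bool.noConfusion (show false = true from h1)
    | true =>
      rw [hgj] at h1
      obtain ⟨i, hi1, hi2⟩ := hg g (Nat.le_of_ble_eq_true hgj)
      have hX : ∀ X, X = Nat.xor (cl tL g) (Nat.land (cl tL g) F) → X.testBit i = true := by
        intro X hX
        have hX' : X = cl tL g ^^^ (cl tL g &&& F) := hX
        rw [hX', Nat.testBit_xor, Nat.testBit_and, hi1]
        cases hFi : F.testBit i with
        | false => rfl
        | true => exact absurd hi2 (hF i hFi)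
      have h2 : cond (Nat.beq l 0) (Nat.beq (Nat.xor (cl tL g) (Nat.land (cl tL g) F)) 0)
          (cond (Nat.beq (Nat.land (Nat.xor (cl tL g) (Nat.land (cl tL g) F)) (memS l))
            (Nat.xor (cl tL g) (Nat.land (cl tL g) F)))
            (run tL j fuel (Nat.div H 67108864) (Nat.lor F (conS l))) false) = true := h1
      have hXi := hX _ rfl
      generalize Nat.xor (cl tL g) (Nat.land (cl tL g) F) = X at h2 hXi
      cases hl : Nat.beq l 0 with
      | true =>
        rw [hl] at h2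
        have h3 : X = 0 := beq_spec h2
        rw [h3] at hXi
        exact zero_bit hXi
      | false =>
        rw [hl] at h2
        cases hs : Nat.beq (Nat.land X (memS l)) X with
        | false =>
          rw [hs] at h2
          exact Bool.noConfusion (show false = true from h2)
        | true =>
          rw [hs] at h2
          have hm : (memS l).testBit i = true := sub_spec hs hXi
          refine ih _ _ h2 ?_
          intro i' hi' hH
          have h4 : (F ||| conS l).testBit i' = true := hi'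
          rw [Nat.testBit_or, Bool.or_eq_true] at h4
          rcases h4 with h4 | h4
          · exact hF i' h4 hH
          · exact lit_sound hc (Nat.pred l) hm hi2 h4 hH

theorem chk_sound (hc : TCol 5 c) {tL tH : Tr} {off : ℕ} (n : ℕ) :
    ∀ j, Good c tL j → chk tL tH off n j = true → Good c tL (j + n) := by
  induction n with
  | zero => intro j hg _; exact hg
  | succ n ih =>
    intro j hg h
    have h1 : (fc j fun j => cond (run tL j 10000 (tH.get (Nat.sub j off)) (cl tL (Nat.succ j)))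
      (chk tL tH off n (Nat.succ j)) false) = true := h
    rw [fc_eq] at h1
    cases hr : run tL j 10000 (tH.get (Nat.sub j off)) (cl tL (Nat.succ j)) with
    | false =>
      rw [hr] at h1
      exact Bool.noConfusion (show false = true from h1)
    | true =>
      rw [hr] at h1
      have hg' : Good c tL (j + 1) := by
        intro g hgj
        rcases Nat.lt_or_ge j g with h2 | h2
        · have h3 : g = j + 1 := by omega
          subst h3
          by_contra hcon
          refine run_sound hc hg 10000 _ _ hr ?_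
          intro i hi hH
          exact hcon ⟨i, hi, hH⟩
        · exact hg g h2
      have h4 := ih (j + 1) hg' h1
      have h5 : j + 1 + n = j + (n + 1) := by omega
      rw [← h5]
      exact h4

end Pool.Agent.Lib.MP_a966e6_co.PNU.Neg5
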