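import Mathlib
import Pool.Agent.Lib.MP_a966e6_co.PNU.Neg5.Sem

/-!
The exact cover constraints hold.
-/

set_option autoImplicit false

namespace Pool.Agent.Lib.MP_a966e6_co.PNU.Neg5

variable {c : ℕ → ℕ → ℕ}

theorem exT_spec {m : ℕ} (h : exT m = true) : ∃ t < 305, tT.get t = m := by
  have key : ∀ n : ℕ, (Nat.rec (motive := fun _ => Bool) false
      (fun t ih => cond (Nat.beq (tT.get t) m) true ih) n : Bool) = true →
      ∃ t < n, tT.get t = m := by
    intro n
    induction n with
    | zero => intro h; exact Bool.noConfusion (show false = true from h)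
    | succ n ih =>
      intro h
      have h1 : cond (Nat.beq (tT.get n) m) true (Nat.rec (motive := fun _ => Bool) false
        (fun t ih => cond (Nat.beq (tT.get t) m) true ih) n) = true := h
      cases hb : Nat.beq (tT.get n) m with
      | true => exact ⟨n, Nat.lt_succ_self n, beq_spec hb⟩
      | false =>
        rw [hb] at h1
        obtain ⟨t, ht, h2⟩ := ih h1
        exact ⟨t, by omega, h2⟩
  exact key 305 h

theorem tri_index {a b d : ℕ} (hab : a < b) (hbd : b < d) (hd : d < 15) (h1 : b - a ≤ 9)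
    (h2 : d - b ≤ 9) (h3 : a + 15 - d ≤ 9) :
    ∃ t < 305, fst (tT.get t) = a ∧ snd (tT.get t) = b ∧ thd (tT.get t) = d := by
  have k1 := allB_spec (allB_spec (allB_spec testE_ok d hd) b hbd) a hab
  have k2 := imB_spec k1 (by
    have e1 : Nat.ble (Nat.sub b a) 9 = true := Nat.ble_eq_true_of_le h1
    have e2 : Nat.ble (Nat.sub d b) 9 = true := Nat.ble_eq_true_of_le h2
    have e3 : Nat.ble (Nat.sub (Nat.add a 15) d) 9 = true := Nat.ble_eq_true_of_le h3
    rw [e1, e2, e3]
    rfl)
  obtain ⟨t, ht, h4⟩ := exT_spec k2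
  have h5 : tT.get t = a + (16 * b + 256 * d) := h4
  refine ⟨t, ht, ?_, ?_, ?_⟩
  · have : fst (tT.get t) = tT.get t % 16 := rfl
    omega
  · have : snd (tT.get t) = tT.get t / 16 % 16 := rfl
    omega
  · have : thd (tT.get t) = tT.get t / 256 := rfl
    omega

/-- `(u, v)` is a directed side of length `e` of triangle number `t` -/
def Dir (t u v e : ℕ) : Prop :=
  (u = fst (tT.get t) ∧ v = snd (tT.get t) ∧ e = snd (tT.get t) - fst (tT.get t)) ∨
  (u = snd (tT.get t) ∧ v = thd (tT.get t) ∧ e = thd (tT.get t) - snd (tT.get t)) ∨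
  (u = thd (tT.get t) ∧ v = fst (tT.get t) ∧ e = 15 + fst (tT.get t) - thd (tT.get t))

theorem mono_side (hc : TCol 5 c) {u e : ℕ} (hu : u < 15) (h1 : 1 ≤ e) (h2 : e ≤ 9) :
    ∃ t < 305, MonoT c (c u (u + e)) t ∧ Dir t u ((u + e) % 15) e := by
  obtain ⟨w, hw1, hw2, hw3, hw4, hw5, hw6⟩ := apex hc u h1 h2
  rcases Nat.lt_or_ge (u + w) 15 with h3 | h3
  · obtain ⟨t, ht, t1, t2, t3⟩ := tri_index (a := u) (b := u + e) (d := u + w) (by omega)
      (by omega) h3 (by omega) (by omega) (by omega)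
    refine ⟨t, ht, ⟨?_, ?_, ?_⟩, Or.inl ⟨by rw [t1], ?_, ?_⟩⟩
    · rw [t1, t2]
    · rw [t2, t3]; exact hw6
    · rw [t1, t3]; exact hw5
    · rw [t2]; omega
    · rw [t1, t2]; omega
  · rcases Nat.lt_or_ge (u + e) 15 with h4 | h4
    · obtain ⟨t, ht, t1, t2, t3⟩ := tri_index (a := u + w - 15) (b := u) (d := u + e) (by omega)
        (by omega) h4 (by omega) (by omega) (by omega)
      have e1 : c (u + w - 15) u = c u (u + e) := by
        rw [hc.symm, ← hw5, per15 hc u (u + w - 15), per15 hc u (u + w)]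
        congr 1
        omega
      have e2 : c (u + w - 15) (u + e) = c u (u + e) := by
        rw [hc.symm, ← hw6, per15 hc (u + e) (u + w - 15), per15 hc (u + e) (u + w)]
        congr 1
        omega
      refine ⟨t, ht, ⟨?_, ?_, ?_⟩, Or.inr (Or.inl ⟨by rw [t2], ?_, ?_⟩)⟩
      · rw [t1, t2]; exact e1
      · rw [t2, t3]
      · rw [t1, t3]; exact e2
      · rw [t3]; omega
      · rw [t2, t3]; omega
    · obtain ⟨t, ht, t1, t2, t3⟩ := tri_index (a := u + e - 15) (b := u + w - 15) (d := u)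
        (by omega) (by omega) hu (by omega) (by omega) (by omega)
      have e0 : c (u + e - 15) u = c u (u + e) := by
        rw [hc.symm, per15 hc u (u + e - 15), per15 hc u (u + e)]
        congr 1
        omega
      have e1 : c (u + w - 15) u = c u (u + e) := by
        rw [hc.symm, ← hw5, per15 hc u (u + w - 15), per15 hc u (u + w)]
        congr 1
        omega
      have e2 : c (u + e - 15) (u + w - 15) = c u (u + e) := by
        rw [← hw6, per15 hc (u + e - 15) (u + w - 15), per15 hc (u + e) (u + w)]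
        congr 1 <;> omega
      refine ⟨t, ht, ⟨?_, ?_, ?_⟩, Or.inr (Or.inr ⟨by rw [t3], ?_, ?_⟩)⟩
      · rw [t1, t2]; exact e2
      · rw [t2, t3]; exact e1
      · rw [t1, t3]; exact e0
      · rw [t1]; omega
      · rw [t1, t3]; omega

theorem gB_of {t u v e : ℕ} (ht : t < 305) (h : Dir t u v e) : gB t u v e = true := by
  have h1 := and_spec (allB_spec testG_ok t ht)
  have h2 := and_spec h1.2
  rcases h with ⟨rfl, rfl, rfl⟩ | ⟨rfl, rfl, rfl⟩ | ⟨rfl, rfl, rfl⟩
  · exact h1.1
  · exact h2.1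
  · exact h2.2

theorem gB_side {t u v e p : ℕ} (h : gB t u v e = true) (hp : p < 5) :
    (tG.get (9 * u + e - 1)).testBit (305 * p + t) = true := by
  have h1 := (and_spec (allB_spec h p hp)).1
  rw [tb_eq] at h1
  exact h1

theorem gB_out {t u v e p : ℕ} (h : gB t u v e = true) (hp : p < 5) (he : e ≤ 5) :
    (tG.get (135 + (30 * p + 2 * u))).testBit (305 * p + t) = true := by
  have h1 := (and_spec (allB_spec h p hp)).2
  have h2 := (and_spec (imB_spec h1 (Nat.ble_eq_true_of_le he))).1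
  rw [tb_eq] at h2
  exact h2

theorem gB_in {t u v e p : ℕ} (h : gB t u v e = true) (hp : p < 5) (he : e ≤ 5) :
    (tG.get (136 + (30 * p + 2 * v))).testBit (305 * p + t) = true := by
  have h1 := (and_spec (allB_spec h p hp)).2
  have h2 := (and_spec (imB_spec h1 (Nat.ble_eq_true_of_le he))).2
  rw [tb_eq] at h2
  exact h2

theorem hold_of {p t : ℕ} (ht : t < 305) (h : MonoT c p t) : Hold c (305 * p + t) := by
  have e1 : (305 * p + t) / 305 = p := by omega
  have e2 : (305 * p + t) % 305 = t := by omega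
  unfold Hold
  rw [e1, e2]
  exact h

theorem grp_val (hc : TCol 5 c) {g : ℕ} (hg : g < 285) : Val c (tG.get g) := by
  rcases Nat.lt_or_ge g 135 with h | h
  · have hu : g / 9 < 15 := by omega
    obtain ⟨t, ht, h1, h2⟩ := mono_side hc hu (e := g % 9 + 1) (by omega) (by omega)
    have h3 := gB_side (gB_of ht h2) (p := c (g / 9) (g / 9 + (g % 9 + 1)))
      (col_lt hc (by omega))
    have e1 : 9 * (g / 9) + (g % 9 + 1) - 1 = g := by omega
    rw [e1] at h3
    exact ⟨_, h3, hold_of ht h1⟩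
  · obtain ⟨p, u, hp, hu, hg'⟩ : ∃ p u, p < 5 ∧ u < 15 ∧
        (g = 135 + (30 * p + 2 * u) ∨ g = 136 + (30 * p + 2 * u)) :=
      ⟨(g - 135) / 30, (g - 135) % 30 / 2, by omega, by omega, by omega⟩
    rcases hg' with rfl | rfl
    · obtain ⟨d, hd1, hd2, hd3⟩ := out_ex hc u hp
      obtain ⟨t, ht, h1, h2⟩ := mono_side hc hu hd1 (by omega)
      rw [hd3] at h1
      exact ⟨_, gB_out (gB_of ht h2) hp hd2, hold_of ht h1⟩
    · obtain ⟨d, hd1, hd2, hd3⟩ := in_ex hc u hp
      have hu' : (u + (15 - d)) % 15 < 15 := Nat.mod_lt _ (by norm_num)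
      obtain ⟨t, ht, h1, h2⟩ := mono_side hc hu' hd1 (by omega)
      have e1 : c ((u + (15 - d)) % 15) ((u + (15 - d)) % 15 + d) = p := by
        rw [← hd3, hc.symm u (u + (15 - d)), per15 hc, per15 hc (u + (15 - d)) u]
        congr 1 <;> omega
      have e2 : ((u + (15 - d)) % 15 + d) % 15 = u := by omega
      rw [e1] at h1
      rw [e2] at h2
      exact ⟨_, gB_in (gB_of ht h2) hp hd2, hold_of ht h1⟩

theorem cl_le (tL : Tr) {h : ℕ} (hh : h ≤ 285) : cl tL h = tG.get (h - 1) := by
  have h1 : Nat.ble h 285 = true := Nat.ble_eq_true_of_le hh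
  have h2 : cl tL h = cond (Nat.ble h 285) (tG.get (Nat.pred h))
    (unm 4000 (tL.get (Nat.sub h 286))) := rfl
  rw [h2, h1]
  rfl

theorem good_base (hc : TCol 5 c) (tL : Tr) : Good c tL 285 := by
  intro h hh
  rw [cl_le tL hh]
  exact grp_val hc (by omega)

end Pool.Agent.Lib.MP_a966e6_co.PNU.Neg5
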