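import Pool.Agent.Lib.MP_a966e6_co.PNU.Neg5.TestB

/-!
Boolean test of the special clauses of the case `(a, b)`.
-/

set_option autoImplicit false

namespace Pool.Agent.Lib.MP_a966e6_co.PNU.Neg5

/-- `f i` for some `i < n` -/
noncomputable def exB (n : Nat) (f : Nat → Bool) : Bool :=
  Nat.rec (motive := fun _ => Bool) false (fun i ih => cond (f i) true ih) n

/-- rank of an element of `1, .., 5` -/
noncomputable def rkB (e : Nat) : Nat :=
  cond (Nat.beq e (nat_lit 1)) (nat_lit 0) (cond (Nat.beq e (nat_lit 3)) (nat_lit 1)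
    (cond (Nat.beq e (nat_lit 4)) (nat_lit 2) (cond (Nat.beq e (nat_lit 2)) (nat_lit 3) (nat_lit 4))))

/-- chord number `e` has the ends `x`, `y` -/
noncomputable def isE (e x y : Nat) : Bool :=
  or (and (Nat.beq (fst (tE.get e)) x) (Nat.beq (snd (tE.get e)) y))
    (and (Nat.beq (fst (tE.get e)) y) (Nat.beq (snd (tE.get e)) x))

/-- the literal `l` (with shift) is the chord `x y` with kind `k` -/
noncomputable def isL (l k x y : Nat) : Bool :=
  and (Nat.beq (Nat.mod (Nat.pred l) (nat_lit 4)) k)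
    (isE (Nat.mod (Nat.div (Nat.pred l) (nat_lit 4)) (nat_lit 105)) x y)

/-- page of the chord literal `l` -/
noncomputable def pgL (l : Nat) : Nat := Nat.div (Nat.div (Nat.pred l) (nat_lit 4)) (nat_lit 105)

/-- position `v + d` on the circle -/
noncomputable def po (v d : Nat) : Nat := Nat.mod (Nat.add v d) (nat_lit 15)

/-- digit `0` -/
noncomputable def d0 (x : Nat) : Nat := Nat.mod x (nat_lit 8192)

/-- digit `1` -/
noncomputable def d1 (x : Nat) : Nat := Nat.mod (Nat.div x (nat_lit 8192)) (nat_lit 8192)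

/-- digit `2` -/
noncomputable def d2 (x : Nat) : Nat :=
  Nat.mod (Nat.div (Nat.div x (nat_lit 8192)) (nat_lit 8192)) (nat_lit 8192)

/-- digit `3` -/
noncomputable def d3 (x : Nat) : Nat :=
  Nat.mod (Nat.div (Nat.div (Nat.div x (nat_lit 8192)) (nat_lit 8192)) (nat_lit 8192))
    (nat_lit 8192)

/-- form 1: a name of a page or one of the two colours which define the case -/
noncomputable def f1 (a b x : Nat) : Bool :=
  or (exB (nat_lit 5) fun d => and (isL (d0 x) (nat_lit 1) (nat_lit 0) (Nat.succ d))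
      (Nat.beq (pgL (d0 x)) d))
    (or (and (isL (d0 x) (nat_lit 1) (nat_lit 0) (Nat.sub (nat_lit 15) a))
        (Nat.beq (pgL (d0 x)) (nat_lit 0)))
      (and (isL (d0 x) (nat_lit 1) (nat_lit 0) (Nat.sub (nat_lit 15) b))
        (Nat.beq (pgL (d0 x)) (nat_lit 1))))

/-- form 2: two chords at `v` -/
noncomputable def f2 (a x : Nat) : Bool :=
  and (and (ltB (nat_lit 0) (d1 x)) (Nat.beq (pgL (d0 x)) (pgL (d1 x))))
    (exB (nat_lit 15) fun v => exB (nat_lit 5) fun e =>
      and (ltB (rkB (Nat.succ e)) (rkB a))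
        (or (and (isL (d0 x) (nat_lit 2) v (po v (nat_lit 1)))
            (isL (d1 x) (nat_lit 2) v (po v (Nat.sub (nat_lit 15) (Nat.succ e)))))
          (and (isL (d0 x) (nat_lit 2) v (po v (nat_lit 14)))
            (isL (d1 x) (nat_lit 2) v (po v (Nat.succ e))))))

/-- form 3: four chords at `v` -/
noncomputable def f3 (a b x : Nat) : Bool :=
  and (and (and (ltB (nat_lit 0) (d1 x)) (Nat.beq (pgL (d0 x)) (pgL (d1 x))))
      (and (ltB (nat_lit 0) (d2 x)) (and (ltB (nat_lit 0) (d3 x)) (Nat.beq (pgL (d2 x)) (pgL (d3 x))))))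
    (exB (nat_lit 15) fun v => exB (nat_lit 5) fun e =>
      and (ltB (rkB (Nat.succ e)) (rkB b))
        (or (and (and (isL (d0 x) (nat_lit 2) v (po v (nat_lit 1)))
              (isL (d1 x) (nat_lit 2) v (po v (Nat.sub (nat_lit 15) a))))
            (and (isL (d2 x) (nat_lit 2) v (po v (nat_lit 2)))
              (isL (d3 x) (nat_lit 2) v (po v (Nat.sub (nat_lit 15) (Nat.succ e))))))
          (and (and (isL (d0 x) (nat_lit 2) v (po v (nat_lit 14)))
              (isL (d1 x) (nat_lit 2) v (po v a)))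
            (and (isL (d2 x) (nat_lit 2) v (po v (nat_lit 13)))
              (isL (d3 x) (nat_lit 2) v (po v (Nat.succ e)))))))

/-- index of the candidate of the literal `l` -/
noncomputable def caL (l : Nat) : Nat := Nat.div (Nat.pred l) (nat_lit 4)

/-- form 4: a triangle and its three sides -/
noncomputable def f4 (x : Nat) : Bool :=
  and (and (and (Nat.beq (Nat.mod (Nat.pred (d0 x)) (nat_lit 4)) (nat_lit 0)) (ltB (nat_lit 0) (d1 x)))
      (and (ltB (nat_lit 0) (d2 x)) (ltB (nat_lit 0) (d3 x))))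
    (and (and (and (Nat.beq (pgL (d1 x)) (Nat.div (caL (d0 x)) (nat_lit 305)))
          (Nat.beq (pgL (d2 x)) (Nat.div (caL (d0 x)) (nat_lit 305))))
        (Nat.beq (pgL (d3 x)) (Nat.div (caL (d0 x)) (nat_lit 305))))
      (and (and (isL (d1 x) (nat_lit 2) (fst (tT.get (Nat.mod (caL (d0 x)) (nat_lit 305))))
            (snd (tT.get (Nat.mod (caL (d0 x)) (nat_lit 305)))))
          (isL (d2 x) (nat_lit 2) (snd (tT.get (Nat.mod (caL (d0 x)) (nat_lit 305))))
            (thd (tT.get (Nat.mod (caL (d0 x)) (nat_lit 305))))))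
        (isL (d3 x) (nat_lit 2) (fst (tT.get (Nat.mod (caL (d0 x)) (nat_lit 305))))
          (thd (tT.get (Nat.mod (caL (d0 x)) (nat_lit 305)))))))

/-- test of one special clause -/
noncomputable def spB (a b x : Nat) : Bool :=
  and (ltB (nat_lit 0) (d0 x)) (or (f1 a b x) (or (f2 a x) (or (f3 a b x) (f4 x))))

/-- test of the special clauses of the case `(a, b)` -/
noncomputable def testSp (tL : Tr) (a b n : Nat) : Bool := allB n fun i => spB a b (tL.get i)

end Pool.Agent.Lib.MP_a966e6_co.PNU.Neg5
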