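import Pool.Agent.Lib.MP_a966e6_co.PNU.Neg.Def

/-! Rotation, reflection and renaming of the colours of a colouring `TCol k`, and the normal form for `k = 5`. -/

set_option autoImplicit false

namespace Pool.Agent.Lib.MP_a966e6_co.PNU.Neg5

open Pool.Agent.Lib.MP_a966e6_co.PNU

variable {k : ℕ} {c : ℕ → ℕ → ℕ}

theorem lt' (hk : 0 < k) (h : TCol k c) (x y : ℕ) (hxy : x % (3 * k) ≠ y % (3 * k)) : c x y < k := by
  rw [h.per]
  exact h.lt _ _ (Nat.mod_lt _ (by omega)) (Nat.mod_lt _ (by omega)) hxy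

/-- distinct positions -/
theorem ne_mod {n : ℕ} (v d : ℕ) (h1 : 1 ≤ d) (h2 : d < n) : v % n ≠ (v + d) % n := by
  intro h
  have h3 : (v + d - v) % n = 0 := Nat.sub_mod_eq_zero_of_mod_eq h.symm
  rw [Nat.add_sub_cancel_left, Nat.mod_eq_of_lt h2] at h3
  omega

theorem ne_mod' {n : ℕ} (x y : ℕ) (h1 : x < y) (h2 : y < x + n) : x % n ≠ y % n := by
  have := ne_mod (n := n) x (y - x) (by omega) (by omega)
  rwa [show x + (y - x) = y by omega] at this

theorem rot (hk : 0 < k) (h : TCol k c) (a : ℕ) : TCol k (fun x y => c (x + a) (y + a)) where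
  lt := by
    intro x y hx hy hxy
    apply lt' hk h
    rcases lt_or_gt_of_ne hxy with h1 | h1
    · exact ne_mod' _ _ (by omega) (by omega)
    · exact (ne_mod' _ _ (by omega) (by omega)).symm
  symm := fun x y => h.symm _ _
  per := by
    intro x y
    show c (x + a) (y + a) = c (x % (3 * k) + a) (y % (3 * k) + a)
    rw [h.per (x + a), h.per (x % (3 * k) + a), Nat.mod_add_mod, Nat.mod_add_mod]
  t2 := by
    intro v d e h1 h2 h3
    have := h.t2 (v + a) d e h1 h2 h3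
    rwa [show v + a + d = v + d + a by omega, show v + a + e = v + e + a by omega] at this
  t2' := by
    intro v d e h1 h2 h3
    have := h.t2' (v + a) d e h1 h2 h3
    rwa [show v + a + (3 * k - d) = v + (3 * k - d) + a by omega,
      show v + a + (3 * k - e) = v + (3 * k - e) + a by omega] at this
  t3 := by
    intro v y z h1 h2 h3 h4 h5
    have e1 : ∀ w, v + w + a = v + a + w := fun w => by omega
    simp only [e1] at h4 h5 ⊢
    exact h.t3 (v + a) y z h1 h2 h3 h4 h5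
  t4 := by
    intro x b e d h1 h2 h3 h4 h5
    exact h.t4 (x + a) (b + a) (e + a) (d + a) (by omega) (by omega) (by omega) (by omega) h5

/-- the mirror image of a position -/
def mir (n x : ℕ) : ℕ := n - x % n

theorem mir_add {n : ℕ} (hn : 0 < n) (v d : ℕ) (hd : d ≤ n) :
    mir n (v + d) % n = (mir n v + (n - d)) % n := by
  unfold mir
  have hr := Nat.mod_lt v hn
  have h1 : (v + d) % n = (v % n + d) % n := by rw [Nat.mod_add_mod]
  rw [h1]
  obtain ⟨r, hr'⟩ : ∃ r, r = v % n := ⟨_, rfl⟩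
  rw [← hr'] at hr ⊢
  rcases lt_or_ge (r + d) n with h2 | h2
  · rw [Nat.mod_eq_of_lt h2, show n - r + (n - d) = n - (r + d) + n by omega, Nat.add_mod_right]
  · have h3 : (r + d) % n = r + d - n := by
      rw [Nat.mod_eq_sub_mod h2]
      exact Nat.mod_eq_of_lt (by omega)
    rw [h3]
    congr 1
    omega

theorem mir_ne {n : ℕ} (x y : ℕ) (hx : x < n) (hy : y < n) (hxy : x ≠ y) :
    mir n x % n ≠ mir n y % n := by
  unfold mir
  rw [Nat.mod_eq_of_lt hx, Nat.mod_eq_of_lt hy]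
  rcases lt_or_gt_of_ne hxy with h | h
  · exact (ne_mod' _ _ (by omega) (by omega)).symm
  · exact ne_mod' _ _ (by omega) (by omega)

theorem refl (hk : 0 < k) (h : TCol k c) : TCol k (fun x y => c (mir (3 * k) x) (mir (3 * k) y)) := by
  have hn : 0 < 3 * k := by omega
  -- the chord v, v + d
  have key : ∀ v y z, y ≤ 3 * k → z ≤ 3 * k → c (mir (3 * k) (v + y)) (mir (3 * k) (v + z)) =
      c (mir (3 * k) v + (3 * k - y)) (mir (3 * k) v + (3 * k - z)) := by
    intro v y z hy hz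
    rw [h.per, mir_add hn v y hy, mir_add hn v z hz, ← h.per]
  have key0 : ∀ v z, z ≤ 3 * k → c (mir (3 * k) v) (mir (3 * k) (v + z)) =
      c (mir (3 * k) v) (mir (3 * k) v + (3 * k - z)) := by
    intro v z hz
    rw [h.per, mir_add hn v z hz, ← h.per]
  refine ⟨?_, ?_, ?_, ?_, ?_, ?_, ?_⟩
  · intro x y hx hy hxy
    exact lt' hk h _ _ (mir_ne x y hx hy hxy)
  · intro x y
    exact h.symm _ _
  · intro x y
    show c (mir (3 * k) x) (mir (3 * k) y) = c (mir (3 * k) (x % (3 * k))) (mir (3 * k) (y % (3 * k)))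
    unfold mir
    rw [Nat.mod_mod, Nat.mod_mod]
  · intro v d e h1 h2 h3
    show c (mir (3 * k) v) (mir (3 * k) (v + d)) ≠ c (mir (3 * k) v) (mir (3 * k) (v + e))
    rw [key0 v d (by omega), key0 v e (by omega)]
    exact h.t2' _ d e h1 h2 h3
  · intro v d e h1 h2 h3
    show c (mir (3 * k) v) (mir (3 * k) (v + (3 * k - d))) ≠
      c (mir (3 * k) v) (mir (3 * k) (v + (3 * k - e)))
    rw [key0 v _ (by omega), key0 v _ (by omega), show 3 * k - (3 * k - d) = d by omega,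
      show 3 * k - (3 * k - e) = e by omega]
    exact h.t2 _ d e h1 h2 h3
  · intro v y z h1 h2 h3 h4 h5
    change c (mir (3 * k) v) (mir (3 * k) (v + y)) = c (mir (3 * k) v) (mir (3 * k) (v + z)) at h4
    change ∀ w, y < w → w < z → c (mir (3 * k) v) (mir (3 * k) (v + w)) ≠
      c (mir (3 * k) v) (mir (3 * k) (v + y)) at h5
    show c (mir (3 * k) (v + y)) (mir (3 * k) (v + z)) = c (mir (3 * k) v) (mir (3 * k) (v + y))
    rw [key0 v y (by omega), key0 v z (by omega)] at h4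
    rw [key v y z (by omega) (by omega), key0 v y (by omega), h.symm, h4]
    refine h.t3 (mir (3 * k) v) (3 * k - z) (3 * k - y) (by omega) (by omega) (by omega) h4.symm ?_
    intro w hw1 hw2
    have h6 := h5 (3 * k - w) (by omega) (by omega)
    rw [key0 v _ (by omega), key0 v y (by omega), show 3 * k - (3 * k - w) = w by omega, h4] at h6
    exact h6
  · intro a b e d h1 h2 h3 h4 h5
    obtain ⟨β, rfl⟩ : ∃ β, b = a + β := ⟨b - a, by omega⟩
    obtain ⟨ε, rfl⟩ : ∃ ε, e = a + ε := ⟨e - a, by omega⟩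
    obtain ⟨δ, rfl⟩ : ∃ δ, d = a + δ := ⟨d - a, by omega⟩
    change c (mir (3 * k) a) (mir (3 * k) (a + ε)) = c (mir (3 * k) (a + β)) (mir (3 * k) (a + δ)) at h5
    show c (mir (3 * k) a) (mir (3 * k) (a + β)) ≠ c (mir (3 * k) a) (mir (3 * k) (a + ε)) ∧
      c (mir (3 * k) (a + β)) (mir (3 * k) (a + ε)) ≠ c (mir (3 * k) a) (mir (3 * k) (a + ε)) ∧
      c (mir (3 * k) (a + ε)) (mir (3 * k) (a + δ)) ≠ c (mir (3 * k) a) (mir (3 * k) (a + ε)) ∧
      c (mir (3 * k) a) (mir (3 * k) (a + δ)) ≠ c (mir (3 * k) a) (mir (3 * k) (a + ε))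
    rw [key0 a ε (by omega), key a β δ (by omega) (by omega)] at h5
    rw [key0 a ε (by omega), key0 a β (by omega), key0 a δ (by omega), key a β ε (by omega) (by omega),
      key a ε δ (by omega) (by omega)]
    have h6 := h.t4 (mir (3 * k) a) (mir (3 * k) a + (3 * k - δ)) (mir (3 * k) a + (3 * k - ε))
      (mir (3 * k) a + (3 * k - β)) (by omega) (by omega) (by omega) (by omega) (by
        rw [h5]
        exact h.symm _ _)
    refine ⟨h6.2.2.2, ?_, ?_, h6.1⟩
    · rw [h.symm]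
      exact h6.2.2.1
    · rw [h.symm]
      exact h6.2.1

/-- renaming of the colours -/
theorem recol (hk : 0 < k) (h : TCol k c) (π : ℕ → ℕ) (h1 : ∀ x, x < k → π x < k)
    (h2 : ∀ x y, x < k → y < k → π x = π y → x = y) : TCol k (fun x y => π (c x y)) where
  lt := fun x y hx hy hxy => h1 _ (h.lt x y hx hy hxy)
  symm := fun x y => by
    show π (c x y) = π (c y x)
    rw [h.symm]
  per := fun x y => by
    show π (c x y) = π (c (x % (3 * k)) (y % (3 * k)))
    rw [← h.per]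
  t2 := by
    intro v d e g1 g2 g3 g4
    exact h.t2 v d e g1 g2 g3 (h2 _ _ (lt' hk h _ _ (ne_mod _ _ g1 (by omega)))
      (lt' hk h _ _ (ne_mod _ _ (by omega) (by omega))) g4)
  t2' := by
    intro v d e g1 g2 g3 g4
    exact h.t2' v d e g1 g2 g3 (h2 _ _ (lt' hk h _ _ (ne_mod _ _ (by omega) (by omega)))
      (lt' hk h _ _ (ne_mod _ _ (by omega) (by omega))) g4)
  t3 := by
    intro v y z g1 g2 g3 g4 g5
    have g6 := h2 _ _ (lt' hk h _ _ (ne_mod _ _ g1 (by omega)))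
      (lt' hk h _ _ (ne_mod _ _ (by omega) g3)) g4
    show π (c (v + y) (v + z)) = π (c v (v + y))
    rw [h.t3 v y z g1 g2 g3 g6 (fun w w1 w2 w3 => g5 w w1 w2 (by
      show π (c v (v + w)) = π (c v (v + y))
      rw [w3]))]
  t4 := by
    intro a b e d g1 g2 g3 g4 g5
    have lae : c a e < k := lt' hk h _ _ (ne_mod' _ _ (by omega) (by omega))
    have g6 := h2 _ _ lae (lt' hk h _ _ (ne_mod' b d (by omega) (by omega))) g5
    obtain ⟨i1, i2, i3, i4⟩ := h.t4 a b e d g1 g2 g3 g4 g6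
    exact ⟨fun hh => i1 (h2 _ _ (lt' hk h _ _ (ne_mod' _ _ (by omega) (by omega))) lae hh),
      fun hh => i2 (h2 _ _ (lt' hk h _ _ (ne_mod' _ _ (by omega) (by omega))) lae hh),
      fun hh => i3 (h2 _ _ (lt' hk h _ _ (ne_mod' _ _ (by omega) (by omega))) lae hh),
      fun hh => i4 (h2 _ _ (lt' hk h _ _ (ne_mod' _ _ (by omega) (by omega))) lae hh)⟩

def rk (e : ℕ) : ℕ := if e = 1 then 0 else if e = 3 then 1 else if e = 4 then 2 else if e = 2 then 3 else 4

theorem rk_le (e : ℕ) : rk e ≤ 4 := by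
  unfold rk
  split_ifs <;> omega

structure Nrm (c : ℕ → ℕ → ℕ) (a b : ℕ) : Prop where
  tcol : TCol 5 c
  ha : 1 ≤ a ∧ a ≤ 5
  hb : 1 ≤ b ∧ b ≤ 5
  hab : a ≠ b
  lab : ∀ d, 1 ≤ d → d ≤ 5 → c 0 d = d - 1
  fa : c 0 (15 - a) = 0
  fb : c 0 (15 - b) = 1
  m1 : ∀ v e, v < 15 → 1 ≤ e → e ≤ 5 → rk e < rk a → c v (v + 1) ≠ c v (v + (15 - e)) ∧ c v (v + 14) ≠ c v (v + e)
  m2 : ∀ v e, v < 15 → 1 ≤ e → e ≤ 5 → rk e < rk b →
    ¬ (c v (v + 1) = c v (v + (15 - a)) ∧ c v (v + 2) = c v (v + (15 - e))) ∧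
    ¬ (c v (v + 14) = c v (v + a) ∧ c v (v + 13) = c v (v + e))

/-- every colour occurs among the in-chords at `v` -/
theorem exists_in (h : TCol 5 c) (v p : ℕ) (hp : p < 5) : ∃ e, 1 ≤ e ∧ e ≤ 5 ∧ p = c v (v + (15 - e)) := by
  let f : Fin 5 → Fin 5 := fun d => ⟨c v (v + (15 - (d.1 + 1))),
    lt' (by norm_num) h _ _ (ne_mod _ _ (by have := d.2; omega) (by omega))⟩
  have hi : Function.Injective f := by
    intro d e hde
    have h1 : c v (v + (15 - (d.1 + 1))) = c v (v + (15 - (e.1 + 1))) := congrArg Fin.val hde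
    rcases lt_trichotomy d.1 e.1 with h2 | h2 | h2
    · exact absurd h1 (h.t2' v (d.1 + 1) (e.1 + 1) (by omega) (by omega) (by have := e.2; omega))
    · exact Fin.ext h2
    · exact absurd h1.symm (h.t2' v (e.1 + 1) (d.1 + 1) (by omega) (by omega) (by have := d.2; omega))
  obtain ⟨d, hd⟩ := Finite.injective_iff_surjective.1 hi ⟨p, hp⟩
  exact ⟨d.1 + 1, by omega, by have := d.2; omega, (congrArg Fin.val hd).symm⟩

/-- the key of a colouring at the position `0` -/
def Key (n : ℕ) : Prop := ∃ c : ℕ → ℕ → ℕ, TCol 5 c ∧ ∃ a b, 1 ≤ a ∧ a ≤ 5 ∧ 1 ≤ b ∧ b ≤ 5 ∧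
  c 0 1 = c 0 (15 - a) ∧ c 0 2 = c 0 (15 - b) ∧ n = 5 * rk a + rk b

theorem key_rot (h : TCol 5 c) (v a b : ℕ) (ha : 1 ≤ a) (ha' : a ≤ 5) (hb : 1 ≤ b) (hb' : b ≤ 5)
    (h1 : c v (v + 1) = c v (v + (15 - a))) (h2 : c v (v + 2) = c v (v + (15 - b))) :
    Key (5 * rk a + rk b) := by
  refine ⟨_, rot (by norm_num) h v, a, b, ha, ha', hb, hb', ?_, ?_, rfl⟩
  · show c (0 + v) (1 + v) = c (0 + v) (15 - a + v)
    rw [Nat.zero_add, Nat.add_comm 1 v, Nat.add_comm (15 - a) v]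
    exact h1
  · show c (0 + v) (2 + v) = c (0 + v) (15 - b + v)
    rw [Nat.zero_add, Nat.add_comm 2 v, Nat.add_comm (15 - b) v]
    exact h2

/-- mirror image at the position `v` -/
theorem key_mir (h : TCol 5 c) (v a b : ℕ) (hv : v < 15) (ha : 1 ≤ a) (ha' : a ≤ 5) (hb : 1 ≤ b) (hb' : b ≤ 5)
    (h1 : c v (v + 14) = c v (v + a)) (h2 : c v (v + 13) = c v (v + b)) :
    Key (5 * rk a + rk b) := by
  have hr := rot (by norm_num) (refl (by norm_num) h) (15 - v)
  have hm : ∀ x, c (mir 15 (0 + (15 - v))) (mir 15 (x + (15 - v))) = c v (mir 15 (x + (15 - v))) := by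
    intro x
    rw [h.per, h.per v]
    congr 1
    unfold mir
    rw [Nat.zero_add]
    rcases Nat.eq_zero_or_pos v with h0 | h0
    · subst h0
      norm_num
    · rw [Nat.mod_eq_of_lt (show 15 - v < 15 by omega)]
      congr 1
      omega
  have hx : ∀ x, x ≤ 15 → c v (mir 15 (x + (15 - v))) = c v (v + (15 - x)) := by
    intro x hx
    rw [h.per, h.per v]
    congr 1
    show mir 15 (x + (15 - v)) % 15 = (v + (15 - x)) % 15
    unfold mir
    have := Nat.mod_add_div (x + (15 - v)) 15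
    omega
  refine ⟨_, hr, a, b, ha, ha', hb, hb', ?_, ?_, rfl⟩
  · show c (mir 15 (0 + (15 - v))) (mir 15 (1 + (15 - v))) =
      c (mir 15 (0 + (15 - v))) (mir 15 (15 - a + (15 - v)))
    rw [hm, hm, hx 1 (by omega), hx (15 - a) (by omega), show 15 - (15 - a) = a by omega]
    exact h1
  · show c (mir 15 (0 + (15 - v))) (mir 15 (2 + (15 - v))) =
      c (mir 15 (0 + (15 - v))) (mir 15 (15 - b + (15 - v)))
    rw [hm, hm, hx 2 (by omega), hx (15 - b) (by omega), show 15 - (15 - b) = b by omega]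
    exact h2

/-- the mirror image of the colour class at `v` -/
theorem exists_out (h : TCol 5 c) (v p : ℕ) (hp : p < 5) : ∃ e, 1 ≤ e ∧ e ≤ 5 ∧ p = c v (v + e) := by
  let f : Fin 5 → Fin 5 := fun d => ⟨c v (v + (d.1 + 1)),
    lt' (by norm_num) h _ _ (ne_mod _ _ (by omega) (by have := d.2; omega))⟩
  have hi : Function.Injective f := by
    intro d e hde
    have h1 : c v (v + (d.1 + 1)) = c v (v + (e.1 + 1)) := congrArg Fin.val hde
    rcases lt_trichotomy d.1 e.1 with h2 | h2 | h2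
    · exact absurd h1 (h.t2 v (d.1 + 1) (e.1 + 1) (by omega) (by omega) (by have := e.2; omega))
    · exact Fin.ext h2
    · exact absurd h1.symm (h.t2 v (e.1 + 1) (d.1 + 1) (by omega) (by omega) (by have := d.2; omega))
  obtain ⟨d, hd⟩ := Finite.injective_iff_surjective.1 hi ⟨p, hp⟩
  exact ⟨d.1 + 1, by omega, by have := d.2; omega, (congrArg Fin.val hd).symm⟩

theorem exists_nrm (h : ∃ c, TCol 5 c) : ∃ c a b, Nrm c a b := by
  classical
  have hKey : ∃ n, Key n := by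
    obtain ⟨c, hc⟩ := h
    obtain ⟨a, a1, a2, a3⟩ := exists_in hc 0 (c 0 1) (lt' (by norm_num) hc _ _ (by norm_num))
    obtain ⟨b, b1, b2, b3⟩ := exists_in hc 0 (c 0 2) (lt' (by norm_num) hc _ _ (by norm_num))
    rw [Nat.zero_add] at a3 b3
    exact ⟨_, c, hc, a, b, a1, a2, b1, b2, a3, b3, rfl⟩
  obtain ⟨c, hc, a, b, a1, a2, b1, b2, a3, b3, hn⟩ := Nat.find_spec hKey
  have hmin : ∀ m, Key m → 5 * rk a + rk b ≤ m := by
    intro m hm
    rw [← hn]
    exact Nat.find_min' hKey hm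
  have l5 : ∀ v d, 1 ≤ d → d < 15 → c v (v + d) < 5 := fun v d h1 h2 =>
    lt' (by norm_num) hc _ _ (ne_mod _ _ h1 h2)
  -- renaming
  let f : Fin 5 → Fin 5 := fun d => ⟨c 0 (0 + (d.1 + 1)), l5 0 _ (by omega) (by have := d.2; omega)⟩
  have hi : Function.Injective f := by
    intro d e hde
    have h1 : c 0 (0 + (d.1 + 1)) = c 0 (0 + (e.1 + 1)) := congrArg Fin.val hde
    rcases lt_trichotomy d.1 e.1 with h2 | h2 | h2
    · exact absurd h1 (hc.t2 0 (d.1 + 1) (e.1 + 1) (by omega) (by omega) (by have := e.2; omega))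
    · exact Fin.ext h2
    · exact absurd h1.symm (hc.t2 0 (e.1 + 1) (d.1 + 1) (by omega) (by omega) (by have := d.2; omega))
  have hbij : Function.Bijective f := ⟨hi, Finite.injective_iff_surjective.1 hi⟩
  let σ : Fin 5 ≃ Fin 5 := Equiv.ofBijective f hbij
  let π : ℕ → ℕ := fun x => if hx : x < 5 then (σ.symm ⟨x, hx⟩).1 else x
  have π1 : ∀ x, x < 5 → π x < 5 := by
    intro x hx
    show (if hx : x < 5 then (σ.symm ⟨x, hx⟩).1 else x) < 5
    rw [dif_pos hx]
    exact (σ.symm ⟨x, hx⟩).2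
  have π2 : ∀ x y, x < 5 → y < 5 → π x = π y → x = y := by
    intro x y hx hy hxy
    change (if hx : x < 5 then (σ.symm ⟨x, hx⟩).1 else x) =
      (if hx : y < 5 then (σ.symm ⟨y, hx⟩).1 else y) at hxy
    rw [dif_pos hx, dif_pos hy] at hxy
    have := σ.symm.injective (Fin.ext hxy)
    exact congrArg Fin.val this
  have π3 : ∀ d, 1 ≤ d → d ≤ 5 → π (c 0 d) = d - 1 := by
    intro d h1 h2
    have h3 : c 0 d < 5 := by
      have := l5 0 d h1 (by omega)
      rwa [Nat.zero_add] at this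
    show (if hx : c 0 d < 5 then (σ.symm ⟨c 0 d, hx⟩).1 else c 0 d) = d - 1
    rw [dif_pos h3]
    have h4 : σ ⟨d - 1, by omega⟩ = ⟨c 0 d, h3⟩ := by
      apply Fin.ext
      show c 0 (0 + (d - 1 + 1)) = c 0 d
      rw [Nat.zero_add, show d - 1 + 1 = d by omega]
    rw [← h4, Equiv.symm_apply_apply]
  have key1 : ∀ v e, 1 ≤ e → e ≤ 5 → rk e < rk a → c v (v + 1) ≠ c v (v + (15 - e)) := by
    intro v e e1 e2 e3 e4
    obtain ⟨b', g1, g2, g3⟩ := exists_in hc v (c v (v + 2)) (l5 v 2 (by norm_num) (by norm_num))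
    have := hmin _ (key_rot hc v e b' e1 e2 g1 g2 e4 g3)
    have := rk_le b'
    omega
  have key2 : ∀ v e, v < 15 → 1 ≤ e → e ≤ 5 → rk e < rk a → c v (v + 14) ≠ c v (v + e) := by
    intro v e hv e1 e2 e3 e4
    obtain ⟨b', g1, g2, g3⟩ := exists_out hc v (c v (v + 13)) (l5 v 13 (by norm_num) (by norm_num))
    have := hmin _ (key_mir hc v e b' hv e1 e2 g1 g2 e4 g3)
    have := rk_le b'
    omega
  refine ⟨fun x y => π (c x y), a, b, ?_⟩
  refine ⟨recol (by norm_num) hc π π1 π2, ⟨a1, a2⟩, ⟨b1, b2⟩, ?_, π3, ?_, ?_, ?_, ?_⟩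
  · rintro rfl
    have h1 := hc.t2 0 1 2 (by norm_num) (by norm_num) (by norm_num)
    rw [Nat.zero_add, Nat.zero_add, a3, b3] at h1
    exact h1 rfl
  · show π (c 0 (15 - a)) = 0
    rw [← a3, π3 1 (by norm_num) (by norm_num)]
  · show π (c 0 (15 - b)) = 1
    rw [← b3, π3 2 (by norm_num) (by norm_num)]
  · intro v e hv e1 e2 e3
    refine ⟨?_, ?_⟩
    · intro h1
      exact key1 v e e1 e2 e3 (π2 _ _ (l5 v 1 (by norm_num) (by norm_num))
        (l5 v (15 - e) (by omega) (by omega)) h1)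
    · intro h1
      exact key2 v e hv e1 e2 e3 (π2 _ _ (l5 v 14 (by norm_num) (by norm_num))
        (l5 v e (by omega) (by omega)) h1)
  · intro v e hv e1 e2 e3
    refine ⟨?_, ?_⟩
    · rintro ⟨h1, h2⟩
      have h1' := π2 _ _ (l5 v 1 (by norm_num) (by norm_num)) (l5 v (15 - a) (by omega) (by omega)) h1
      have h2' := π2 _ _ (l5 v 2 (by norm_num) (by norm_num)) (l5 v (15 - e) (by omega) (by omega)) h2
      have := hmin _ (key_rot hc v a e a1 a2 e1 e2 h1' h2')
      omega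
    · rintro ⟨h1, h2⟩
      have h1' := π2 _ _ (l5 v 14 (by norm_num) (by norm_num)) (l5 v a (by omega) (by omega)) h1
      have h2' := π2 _ _ (l5 v 13 (by norm_num) (by norm_num)) (l5 v e (by omega) (by omega)) h2
      have := hmin _ (key_mir hc v a e hv a1 a2 e1 e2 h1' h2')
      omega

end Pool.Agent.Lib.MP_a966e6_co.PNU.Neg5
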