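import Mathlib
import Pool.Agent.Lib.MP_a966e6_co.PNU.Neg5.Grp
import Pool.Agent.Lib.MP_a966e6_co.PNU.Neg5.SpecB
import Pool.Agent.Lib.MP_a966e6_co.PNU.Neg5.Wlog

/-!
The special clauses hold, and the conclusion for one case.
-/

set_option autoImplicit false

namespace Pool.Agent.Lib.MP_a966e6_co.PNU.Neg5

variable {c : ℕ → ℕ → ℕ}

theorem exB_spec {n : ℕ} {f : ℕ → Bool} (h : exB n f = true) : ∃ i < n, f i = true := by
  induction n with
  | zero => exact Bool.noConfusion (show false = true from h)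
  | succ n ih =>
    have h1 : cond (f n) true (exB n f) = true := h
    cases hf : f n with
    | true => exact ⟨n, Nat.lt_succ_self n, hf⟩
    | false =>
      rw [hf] at h1
      obtain ⟨i, hi, h2⟩ := ih h1
      exact ⟨i, by omega, h2⟩

theorem dir_side {t u v e w : ℕ} (ht : t < 305) (h : Dir t u v e)
    (hw : (fst w = u ∧ snd w = v ∧ u < v) ∨ (fst w = v ∧ snd w = u ∧ v < u)) :
    sideB w (tT.get t) = true := by
  obtain ⟨k1, k2, k3⟩ := tri_ok ht
  apply side_iff
  rcases h with ⟨h1, h2, h3⟩ | ⟨h1, h2, h3⟩ | ⟨h1, h2, h3⟩ <;>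
    rcases hw with ⟨g1, g2, g3⟩ | ⟨g1, g2, g3⟩ <;> omega

/-- every chord is a side of a triangle of its colour -/
theorem ex_tri (hc : TCol 5 c) {e : ℕ} (he : e < 105) :
    ∃ t < 305, MonoT c (c (fst (tE.get e)) (snd (tE.get e))) t ∧ (tC.get e).testBit t = true := by
  obtain ⟨h1, h2⟩ := chord_ok he
  rcases Nat.lt_or_ge (snd (tE.get e) - fst (tE.get e)) 10 with h3 | h3
  · obtain ⟨t, ht, h4, h5⟩ := mono_side hc (u := fst (tE.get e))
      (e := snd (tE.get e) - fst (tE.get e)) (by omega) (by omega) (by omega)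
    have e1 : fst (tE.get e) + (snd (tE.get e) - fst (tE.get e)) = snd (tE.get e) := by omega
    rw [e1] at h4 h5
    rw [Nat.mod_eq_of_lt h2] at h5
    refine ⟨t, ht, h4, ?_⟩
    rw [C_iff he ht]
    exact dir_side ht h5 (Or.inl ⟨rfl, rfl, h1⟩)
  · obtain ⟨t, ht, h4, h5⟩ := mono_side hc (u := snd (tE.get e))
      (e := fst (tE.get e) + 15 - snd (tE.get e)) h2 (by omega) (by omega)
    have e1 : c (snd (tE.get e)) (snd (tE.get e) + (fst (tE.get e) + 15 - snd (tE.get e))) =
        c (fst (tE.get e)) (snd (tE.get e)) := by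
      rw [hc.symm (fst (tE.get e)), per15 hc, per15 hc (snd (tE.get e)) (fst (tE.get e))]
      congr 1
      omega
    have e2 : (snd (tE.get e) + (fst (tE.get e) + 15 - snd (tE.get e))) % 15 =
      fst (tE.get e) := by omega
    rw [e1] at h4
    rw [e2] at h5
    refine ⟨t, ht, h4, ?_⟩
    rw [C_iff he ht]
    exact dir_side ht h5 (Or.inr ⟨rfl, rfl, h1⟩)

theorem isE_col (hc : TCol 5 c) {e x y : ℕ} (h : isE e x y = true) :
    c (fst (tE.get e)) (snd (tE.get e)) = c x y := by
  rcases or_spec h with h | h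
  · have h1 := and_spec h
    rw [beq_spec h1.1, beq_spec h1.2]
  · have h1 := and_spec h
    rw [beq_spec h1.1, beq_spec h1.2, hc.symm]

theorem isL_spec {l k x y : ℕ} (h : isL l k x y = true) : Nat.pred l % 4 = k ∧
    isE (Nat.pred l / 4 % 105) x y = true := by
  have h1 := and_spec h
  exact ⟨beq_spec h1.1, h1.2⟩

theorem sel_one (a b d e : ℕ) : sel 1 a b d e = b := rfl

theorem sel_two (a b d e : ℕ) : sel 2 a b d e = d := rfl

theorem sel_zero (a b d e : ℕ) : sel 0 a b d e = a := rfl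

theorem val_pos (hc : TCol 5 c) {l x y : ℕ} (h : isL l 1 x y = true) (hx : c x y = pgL l) :
    Val c (memS l) := by
  obtain ⟨h1, h2⟩ := isL_spec h
  have he : Nat.pred l / 4 % 105 < 105 := Nat.mod_lt _ (by norm_num)
  obtain ⟨t, ht, h3, h4⟩ := ex_tri hc he
  have h5 := isE_col hc h2
  rw [h5, hx] at h3
  have h6 : memS l = pg (pgL l) (tC.get (Nat.pred l / 4 % 105)) := by
    have : memS l = memF (Nat.pred l) := rfl
    rw [this, memF_eq, h1, sel_one]
    rfl
  rw [h6]
  exact ⟨_, tb_pg' h4, hold_of ht h3⟩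

theorem val_neg (hc : TCol 5 c) {l x y : ℕ} (h : isL l 2 x y = true) (hx : c x y ≠ pgL l) :
    Val c (memS l) := by
  obtain ⟨h1, h2⟩ := isL_spec h
  have he : Nat.pred l / 4 % 105 < 105 := Nat.mod_lt _ (by norm_num)
  obtain ⟨t, ht, h3, h4⟩ := ex_tri hc he
  have h5 := isE_col hc h2
  obtain ⟨k1, k2⟩ := chord_ok he
  have h7 : c x y < 5 := by
    rw [← h5]
    exact col_lt hc (by omega)
  rw [h5] at h3
  have h6 : memS l = cr (pgL l) (tC.get (Nat.pred l / 4 % 105)) := by
    have : memS l = memF (Nat.pred l) := rfl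
    rw [this, memF_eq, h1, sel_two]
    rfl
  rw [h6]
  exact ⟨_, tb_cr' (small_C he) h4 h7 hx, hold_of ht h3⟩

theorem val_tri {l : ℕ} (h : Nat.pred l % 4 = 0) (hh : Hold c (caL l)) : Val c (memS l) := by
  have h6 : memS l = Nat.shiftLeft 1 (caL l) := by
    have : memS l = memF (Nat.pred l) := rfl
    rw [this, memF_eq, h, sel_zero]
    rfl
  rw [h6]
  exact ⟨_, one_bit' _, hh⟩

theorem unm_succ (f x : ℕ) : unm (f + 1) x = cond (Nat.beq x 0) 0
    (memS (x % 8192) ||| unm f (x / 8192)) := by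
  have h : unm (f + 1) x = cond (Nat.beq x 0) 0 (fc (Nat.mod x 8192) fun l =>
    Nat.lor (memS l) (unm f (Nat.div x 8192))) := rfl
  rw [h, fc_eq]
  rfl

theorem beq_false {x : ℕ} (h : x ≠ 0) : Nat.beq x 0 = false := by
  cases hb : Nat.beq x 0 with
  | false => rfl
  | true => exact absurd (beq_spec hb) h

theorem val_unm0 {f x : ℕ} (h : x % 8192 ≠ 0) (hv : Val c (memS (x % 8192))) :
    Val c (unm (f + 1) x) := by
  obtain ⟨i, h1, h2⟩ := hv
  rw [unm_succ, beq_false (by intro h0; rw [h0] at h; exact h rfl)]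
  exact ⟨i, by
    show (memS (x % 8192) ||| unm f (x / 8192)).testBit i = true
    rw [Nat.testBit_or, h1]
    rfl, h2⟩

theorem val_unmS {f x : ℕ} (h : x ≠ 0) (hv : Val c (unm f (x / 8192))) :
    Val c (unm (f + 1) x) := by
  obtain ⟨i, h1, h2⟩ := hv
  rw [unm_succ, beq_false h]
  exact ⟨i, by
    show (memS (x % 8192) ||| unm f (x / 8192)).testBit i = true
    rw [Nat.testBit_or, h1, Bool.or_true], h2⟩

theorem val_d0 {x : ℕ} (h : 0 < d0 x) (hv : Val c (memS (d0 x))) : Val c (unm 4000 x) :=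
  val_unm0 (f := 3999) (Nat.pos_iff_ne_zero.1 h) hv

theorem val_d1 {x : ℕ} (h : 0 < d1 x) (hv : Val c (memS (d1 x))) : Val c (unm 4000 x) := by
  have h1 : 0 < x / 8192 % 8192 := h
  exact val_unmS (f := 3999) (by omega) (val_unm0 (f := 3998) (by omega) hv)

theorem val_d2 {x : ℕ} (h : 0 < d2 x) (hv : Val c (memS (d2 x))) : Val c (unm 4000 x) := by
  have h1 : 0 < x / 8192 / 8192 % 8192 := h
  exact val_unmS (f := 3999) (by omega) (val_unmS (f := 3998) (by omega)
    (val_unm0 (f := 3997) (by omega) hv))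

theorem val_d3 {x : ℕ} (h : 0 < d3 x) (hv : Val c (memS (d3 x))) : Val c (unm 4000 x) := by
  have h1 : 0 < x / 8192 / 8192 / 8192 % 8192 := h
  exact val_unmS (f := 3999) (by omega) (val_unmS (f := 3998) (by omega)
    (val_unmS (f := 3997) (by omega) (val_unm0 (f := 3996) (by omega) hv)))

theorem rkB_eq (e : ℕ) : rkB e = rk e := by
  unfold rk
  have h : ∀ a : ℕ, e ≠ a → Nat.beq e a = false := by
    intro a ha
    cases hb : Nat.beq e a with
    | false => rfl
    | true => exact absurd (beq_spec hb) ha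
  by_cases h1 : e = 1
  · subst h1; rfl
  by_cases h3 : e = 3
  · subst h3; rfl
  by_cases h4 : e = 4
  · subst h4; rfl
  by_cases h2 : e = 2
  · subst h2; rfl
  rw [if_neg h1, if_neg h3, if_neg h4, if_neg h2]
  unfold rkB
  rw [h 1 h1, h 3 h3, h 4 h4, h 2 h2]
  rfl

theorem po_col (hc : TCol 5 c) (v d : ℕ) : c v (po v d) = c v (v + d) := by
  have : po v d = (v + d) % 15 := rfl
  rw [this, per15 hc, per15 hc v (v + d), Nat.mod_mod]

theorem f1_sound {a b x : ℕ} (hN : Nrm c a b) (h0 : 0 < d0 x) (h : f1 a b x = true) :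
    Val c (unm 4000 x) := by
  have hc := hN.tcol
  apply val_d0 h0
  rcases or_spec h with h | h
  · obtain ⟨d, hd, h1⟩ := exB_spec h
    have hd' : d < 5 := hd
    have h2 := and_spec h1
    refine val_pos hc h2.1 ?_
    have h3 : pgL (d0 x) = d := beq_spec h2.2
    rw [h3]
    exact hN.lab (d + 1) (by omega) (by omega)
  · rcases or_spec h with h | h
    · have h2 := and_spec h
      refine val_pos hc h2.1 ?_
      rw [beq_spec h2.2]
      exact hN.fa
    · have h2 := and_spec h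
      refine val_pos hc h2.1 ?_
      rw [beq_spec h2.2]
      exact hN.fb

theorem two_sound (hc : TCol 5 c) {x v y z : ℕ} (h0 : 0 < d0 x) (h1 : 0 < d1 x)
    (hp : pgL (d0 x) = pgL (d1 x)) (hy : isL (d0 x) 2 v y = true) (hz : isL (d1 x) 2 v z = true)
    (hne : c v y ≠ c v z) : Val c (unm 4000 x) := by
  by_cases h : c v y = pgL (d0 x)
  · refine val_d1 h1 (val_neg hc hz ?_)
    rw [← hp, ← h]
    exact hne.symm
  · exact val_d0 h0 (val_neg hc hy h)

theorem f2_sound {a b x : ℕ} (hN : Nrm c a b) (h0 : 0 < d0 x) (h : f2 a x = true) :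
    Val c (unm 4000 x) := by
  have hc := hN.tcol
  have g1 := and_spec h
  have g2 := and_spec g1.1
  obtain ⟨v, hv, g3⟩ := exB_spec g1.2
  obtain ⟨e, he, g4⟩ := exB_spec g3
  have he' : e < 5 := he
  have g5 := and_spec g4
  have hr := ltB_spec g5.1
  rw [rkB_eq, rkB_eq] at hr
  obtain ⟨m1, m2⟩ := hN.m1 v (e + 1) hv (by omega) (by omega) hr
  rcases or_spec g5.2 with g6 | g6
  · have g7 := and_spec g6
    refine two_sound hc h0 (ltB_spec g2.1) (beq_spec g2.2) g7.1 g7.2 ?_
    rw [po_col hc, po_col hc]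
    exact m1
  · have g7 := and_spec g6
    refine two_sound hc h0 (ltB_spec g2.1) (beq_spec g2.2) g7.1 g7.2 ?_
    rw [po_col hc, po_col hc]
    exact m2

theorem four_sound (hc : TCol 5 c) {x v y z y' z' : ℕ} (h0 : 0 < d0 x) (h1 : 0 < d1 x)
    (h2 : 0 < d2 x) (h3 : 0 < d3 x)
    (hp : pgL (d0 x) = pgL (d1 x)) (hp' : pgL (d2 x) = pgL (d3 x))
    (hy : isL (d0 x) 2 v y = true) (hz : isL (d1 x) 2 v z = true)
    (hy' : isL (d2 x) 2 v y' = true) (hz' : isL (d3 x) 2 v z' = true)
    (hne : ¬ (c v y = c v z ∧ c v y' = c v z')) : Val c (unm 4000 x) := by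
  by_cases k0 : c v y = pgL (d0 x)
  · by_cases k1 : c v z = pgL (d1 x)
    · by_cases k2 : c v y' = pgL (d2 x)
      · refine val_d3 h3 (val_neg hc hz' ?_)
        intro k3
        exact hne ⟨by rw [k0, k1, hp], by rw [k2, k3, hp']⟩
      · exact val_d2 h2 (val_neg hc hy' k2)
    · exact val_d1 h1 (val_neg hc hz k1)
  · exact val_d0 h0 (val_neg hc hy k0)

theorem f3_sound {a b x : ℕ} (hN : Nrm c a b) (h0 : 0 < d0 x) (h : f3 a b x = true) :
    Val c (unm 4000 x) := by
  have hc := hN.tcol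
  have g1 := and_spec h
  have g2 := and_spec g1.1
  have g2a := and_spec g2.1
  have g2b := and_spec g2.2
  have g2c := and_spec g2b.2
  obtain ⟨v, hv, g3⟩ := exB_spec g1.2
  obtain ⟨e, he, g4⟩ := exB_spec g3
  have he' : e < 5 := he
  have g5 := and_spec g4
  have hr := ltB_spec g5.1
  rw [rkB_eq, rkB_eq] at hr
  obtain ⟨m1, m2⟩ := hN.m2 v (e + 1) hv (by omega) (by omega) hr
  rcases or_spec g5.2 with g6 | g6
  · have g7 := and_spec g6
    have g8 := and_spec g7.1
    have g9 := and_spec g7.2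
    refine four_sound hc h0 (ltB_spec g2a.1) (ltB_spec g2b.1) (ltB_spec g2c.1)
      (beq_spec g2a.2) (beq_spec g2c.2) g8.1 g8.2 g9.1 g9.2 ?_
    rw [po_col hc, po_col hc, po_col hc, po_col hc]
    exact m1
  · have g7 := and_spec g6
    have g8 := and_spec g7.1
    have g9 := and_spec g7.2
    refine four_sound hc h0 (ltB_spec g2a.1) (ltB_spec g2b.1) (ltB_spec g2c.1)
      (beq_spec g2a.2) (beq_spec g2c.2) g8.1 g8.2 g9.1 g9.2 ?_
    rw [po_col hc, po_col hc, po_col hc, po_col hc]
    exact m2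

theorem f4_sound (hc : TCol 5 c) {x : ℕ} (h0 : 0 < d0 x) (h : f4 x = true) :
    Val c (unm 4000 x) := by
  have g1 := and_spec h
  have g2 := and_spec g1.1
  have g3 := and_spec g2.1
  have g4 := and_spec g2.2
  have g5 := and_spec g1.2
  have g6 := and_spec g5.1
  have g7 := and_spec g6.1
  have g8 := and_spec g5.2
  have g9 := and_spec g8.1
  have p1 : pgL (d1 x) = caL (d0 x) / 305 := beq_spec g7.1
  have p2 : pgL (d2 x) = caL (d0 x) / 305 := beq_spec g7.2
  have p3 : pgL (d3 x) = caL (d0 x) / 305 := beq_spec g6.2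
  by_cases k1 : c (fst (tT.get (caL (d0 x) % 305))) (snd (tT.get (caL (d0 x) % 305))) = pgL (d1 x)
  · by_cases k2 : c (snd (tT.get (caL (d0 x) % 305))) (thd (tT.get (caL (d0 x) % 305))) =
        pgL (d2 x)
    · by_cases k3 : c (fst (tT.get (caL (d0 x) % 305))) (thd (tT.get (caL (d0 x) % 305))) =
          pgL (d3 x)
      · refine val_d0 h0 (val_tri (beq_spec g3.1) ?_)
        exact ⟨by rw [k1, p1], by rw [k2, p2], by rw [k3, p3]⟩
      · exact val_d3 (ltB_spec g4.2) (val_neg hc g8.2 k3)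
    · exact val_d2 (ltB_spec g4.1) (val_neg hc g9.2 k2)
  · exact val_d1 (ltB_spec g3.2) (val_neg hc g9.1 k1)

theorem spB_sound {a b x : ℕ} (hN : Nrm c a b) (h : spB a b x = true) : Val c (unm 4000 x) := by
  have h1 := and_spec h
  have h0 := ltB_spec h1.1
  rcases or_spec h1.2 with h2 | h2
  · exact f1_sound hN h0 h2
  rcases or_spec h2 with h3 | h3
  · exact f2_sound hN h0 h3
  rcases or_spec h3 with h4 | h4
  · exact f3_sound hN h0 h4
  · exact f4_sound hN.tcol h0 h4

theorem good_sp {a b ns : ℕ} (hN : Nrm c a b) (tL : Tr) (h : testSp tL a b ns = true) :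
    Good c tL (285 + ns) := by
  intro g hg
  rcases Nat.lt_or_ge 285 g with h1 | h1
  · have h2 := allB_spec h (g - 286) (by omega)
    have h3 := spB_sound hN h2
    have h4 : cl tL g = unm 4000 (tL.get (g - 286)) := by
      have k1 : Nat.ble g 285 = false := by
        cases hb : Nat.ble g 285 with
        | false => rfl
        | true =>
          have := Nat.le_of_ble_eq_true hb
          omega
      have k2 : cl tL g = cond (Nat.ble g 285) (tG.get (Nat.pred g))
        (unm 4000 (tL.get (Nat.sub g 286))) := rfl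
      have k3 : Nat.sub g 286 = g - 286 := rfl
      rw [k2, k1, cond_false, k3]
    rw [h4]
    exact h3
  · exact good_base hN.tcol tL g h1

/-- the end of a case -/
theorem no_good {tL : Tr} {j : ℕ} (h : Good c tL j) (hz : Nat.beq (cl tL j) 0 = true) : False := by
  obtain ⟨i, h1, _⟩ := h j (le_refl j)
  rw [beq_spec hz] at h1
  exact zero_bit h1

/-- a case with one check -/
theorem no_case {a b ns n j : ℕ} (hN : Nrm c a b) {tL tH : Tr} (h1 : testSp tL a b ns = true)
    (h2 : chk tL tH (285 + ns) n (285 + ns) = true) (hj : 285 + ns + n = j)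
    (h3 : Nat.beq (cl tL j) 0 = true) : False := by
  subst hj
  exact no_good (chk_sound hN.tcol n (285 + ns) (good_sp hN tL h1) h2) h3

end Pool.Agent.Lib.MP_a966e6_co.PNU.Neg5
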