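import Mathlib
import Pool.Agent.Lib.MP_a966e6_co.PNU.Neg5.Spec
import Pool.Agent.Lib.MP_a966e6_co.PNU.Neg5.CS
import Pool.Agent.Lib.MP_a966e6_co.PNU.Neg5.C12
import Pool.Agent.Lib.MP_a966e6_co.PNU.Neg5.C13
import Pool.Agent.Lib.MP_a966e6_co.PNU.Neg5.C14a
import Pool.Agent.Lib.MP_a966e6_co.PNU.Neg5.C14b
import Pool.Agent.Lib.MP_a966e6_co.PNU.Neg5.C14c
import Pool.Agent.Lib.MP_a966e6_co.PNU.Neg5.C15a
import Pool.Agent.Lib.MP_a966e6_co.PNU.Neg5.C15b
import Pool.Agent.Lib.MP_a966e6_co.PNU.Neg5.C31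
import Pool.Agent.Lib.MP_a966e6_co.PNU.Neg5.C34a
import Pool.Agent.Lib.MP_a966e6_co.PNU.Neg5.C34b
import Pool.Agent.Lib.MP_a966e6_co.PNU.Neg5.C35

/-!
There is no colouring `TCol 5`.
-/

set_option autoImplicit false

namespace Pool.Agent.Lib.MP_a966e6_co.PNU.Neg5

variable {c : ℕ → ℕ → ℕ}

theorem no12 (h : Nrm c 1 2) : False :=
  no_case (ns := 70) (n := 1216) (j := 1571) h sp12 ck12 rfl ze12

theorem no13 (h : Nrm c 1 3) : False :=
  no_case (ns := 12) (n := 1171) (j := 1468) h sp13 ck13 rfl ze13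

theorem no14 (h : Nrm c 1 4) : False := by
  have g0 : Good c tL14 343 := good_sp h tL14 (ns := 58) sp14
  have g1 : Good c tL14 1648 := chk_sound h.tcol 1305 343 g0 ck14a
  have g2 : Good c tL14 2451 := chk_sound h.tcol 803 1648 g1 ck14b
  have g3 : Good c tL14 3255 := chk_sound h.tcol 804 2451 g2 ck14c
  exact no_good g3 ze14

theorem no15 (h : Nrm c 1 5) : False := by
  have g0 : Good c tL15 425 := good_sp h tL15 (ns := 140) sp15
  have g1 : Good c tL15 1525 := chk_sound h.tcol 1100 425 g0 ck15a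
  have g2 : Good c tL15 2139 := chk_sound h.tcol 614 1525 g1 ck15b
  exact no_good g2 ze15

theorem no21 (h : Nrm c 2 1) : False :=
  no_case (ns := 41) (n := 76) (j := 402) h sp21 ck21 rfl ze21

theorem no23 (h : Nrm c 2 3) : False :=
  no_case (ns := 42) (n := 64) (j := 391) h sp23 ck23 rfl ze23

theorem no24 (h : Nrm c 2 4) : False :=
  no_case (ns := 52) (n := 78) (j := 415) h sp24 ck24 rfl ze24

theorem no25 (h : Nrm c 2 5) : False :=
  no_case (ns := 74) (n := 83) (j := 442) h sp25 ck25 rfl ze25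

theorem no31 (h : Nrm c 3 1) : False :=
  no_case (ns := 49) (n := 950) (j := 1284) h sp31 ck31 rfl ze31

theorem no32 (h : Nrm c 3 2) : False :=
  no_case (ns := 99) (n := 519) (j := 903) h sp32 ck32 rfl ze32

theorem no34 (h : Nrm c 3 4) : False := by
  have g0 : Good c tL34 382 := good_sp h tL34 (ns := 97) sp34
  have g1 : Good c tL34 1501 := chk_sound h.tcol 1119 382 g0 ck34a
  have g2 : Good c tL34 2248 := chk_sound h.tcol 747 1501 g1 ck34b
  exact no_good g2 ze34

theorem no35 (h : Nrm c 3 5) : False :=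
  no_case (ns := 171) (n := 1067) (j := 1523) h sp35 ck35 rfl ze35

theorem no41 (h : Nrm c 4 1) : False :=
  no_case (ns := 74) (n := 245) (j := 604) h sp41 ck41 rfl ze41

theorem no42 (h : Nrm c 4 2) : False :=
  no_case (ns := 102) (n := 224) (j := 611) h sp42 ck42 rfl ze42

theorem no43 (h : Nrm c 4 3) : False :=
  no_case (ns := 89) (n := 484) (j := 858) h sp43 ck43 rfl ze43

theorem no45 (h : Nrm c 4 5) : False :=
  no_case (ns := 99) (n := 170) (j := 554) h sp45 ck45 rfl ze45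

theorem no51 (h : Nrm c 5 1) : False :=
  no_case (ns := 3) (n := 1) (j := 289) h sp51 ck51 rfl ze51

theorem no52 (h : Nrm c 5 2) : False :=
  no_case (ns := 42) (n := 76) (j := 403) h sp52 ck52 rfl ze52

theorem no53 (h : Nrm c 5 3) : False :=
  no_case (ns := 64) (n := 115) (j := 464) h sp53 ck53 rfl ze53

theorem no54 (h : Nrm c 5 4) : False :=
  no_case (ns := 52) (n := 81) (j := 418) h sp54 ck54 rfl ze54

/-- there is no colouring `TCol 5` -/
theorem no_tcol5 : ¬ ∃ c, TCol 5 c := by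
  intro h
  obtain ⟨c, a, b, hN⟩ := exists_nrm h
  obtain ⟨ha1, ha2⟩ := hN.ha
  obtain ⟨hb1, hb2⟩ := hN.hb
  have hab := hN.hab
  interval_cases a <;> interval_cases b
  · exact hab rfl
  · exact no12 hN
  · exact no13 hN
  · exact no14 hN
  · exact no15 hN
  · exact no21 hN
  · exact hab rfl
  · exact no23 hN
  · exact no24 hN
  · exact no25 hN
  · exact no31 hN
  · exact no32 hN
  · exact hab rfl
  · exact no34 hN
  · exact no35 hN
  · exact no41 hN
  · exact no42 hN
  · exact no43 hN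
  · exact hab rfl
  · exact no45 hN
  · exact no51 hN
  · exact no52 hN
  · exact no53 hN
  · exact no54 hN
  · exact hab rfl

end Pool.Agent.Lib.MP_a966e6_co.PNU.Neg5
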