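import Pool.Agent.Lib.MP_a966e6_co.PNU.Neg5.SpecB
import Pool.Agent.Lib.MP_a966e6_co.PNU.Neg5.D31

/-!
Kernel checks of certificates.
-/

set_option autoImplicit false

namespace Pool.Agent.Lib.MP_a966e6_co.PNU.Neg5

theorem sp31 : testSp tL31 (nat_lit 3) (nat_lit 1) (nat_lit 49) = true := by
  decide +kernel

theorem ck31 : chk tL31 tH31 (nat_lit 334) (nat_lit 950) (nat_lit 334) = true := by
  decide +kernel

theorem ze31 : Nat.beq (cl tL31 (nat_lit 1284)) (nat_lit 0) = true := by
  decide +kernel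

end Pool.Agent.Lib.MP_a966e6_co.PNU.Neg5
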