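
/-!
Binary trees with numbers at the leaves, written with recursors so that the kernel evaluates them
quickly.
-/

set_option autoImplicit false

namespace Pool.Agent.Lib.MP_a966e6_co.PNU.Neg5

/-- Binary trees with numbers at the leaves. -/
inductive Tr where
  | lf (n : Nat) : Tr
  | nd (l r : Tr) : Tr

/-- The leaf with the given number (lowest binary digit first). -/
noncomputable def Tr.get (t : Tr) : Nat → Nat :=
  Tr.rec (motive := fun _ => Nat → Nat) (fun n _ => n)
    (fun _ _ gl gr i => cond (Nat.beq (Nat.mod i (nat_lit 2)) (nat_lit 0))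
      (gl (Nat.div i (nat_lit 2))) (gr (Nat.div i (nat_lit 2)))) t

/-- `f n`, where the kernel evaluates `n` first. -/
noncomputable def fc {α : Type} (n : Nat) (f : Nat → α) : α :=
  Nat.rec (motive := fun _ => α) (f (nat_lit 0)) (fun m _ => f (Nat.succ m)) n

end Pool.Agent.Lib.MP_a966e6_co.PNU.Neg5
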